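import Pool.Agent.H87.CF.CT

/-!
ROW CH (170 lines).  Cutoffs `χ` whose squares have a partition of unity by translates of `2π`.
`σ = Real.smoothTransition`, `a(y) = sin (π/2 σ((y+δ)/(2δ)))`, `b(y) = cos (π/2 σ((y - 2π + δ)/(2δ)))`, `χ = a b` (smooth).
`y ≤ -δ`: `a = sin 0 = 0`. `y ≥ 2π+δ`: `b = cos (π/2) = 0`.  Derivative bounded: `χ'` is continuous and zero outside `[-δ, 2π+δ]` (compact support).
Orthogonality: let `e(y) = exp(i m y)`, `2π`-periodic. `∫ χ² e = ∫_{-δ}^{2π+δ} χ² e = ∫_{-δ}^{δ} + ∫_{δ}^{2π-δ} + ∫_{2π-δ}^{2π+δ}` (interval integrals; `δ < 1 < π`).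
On `[-δ, 2π-δ]`: `b = 1`; on `[δ, 2π+δ]`: `a = 1`.  So the three integrals are `∫_{-δ}^{δ} sin²(π/2 σ((y+δ)/2δ)) e`, `∫_δ^{2π-δ} e`, and, after the shift `y → y + 2π` (`intervalIntegral.integral_comp_add_right`), `∫_{-δ}^{δ} cos²(π/2 σ((y+δ)/2δ)) e`.
Sum: `∫_{-δ}^{2π-δ} e`, which is `2π` for `m = 0` and `0` otherwise (`intervalIntegral` of `exp (c y)`: `integral_exp_mul_complex`, `Complex.exp_int_mul_two_pi_mul_I`-type periodicity).
`CH_e` states this for an arbitrary starting point.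
-/

open MeasureTheory Complex Set Filter Topology
open scoped ENNReal NNReal ContDiff ComplexConjugate

noncomputable section

namespace Pool.Agent.H87.CF

theorem CH_e (m : ℤ) (a : ℝ) : ∫ y in a..(a + 2 * Real.pi), Complex.exp (I * ((m : ℝ) * y : ℝ)) =
    if m = 0 then (2 * Real.pi : ℂ) else 0 := by
  by_cases hm : m = 0
  · subst hm
    simp
  · rw [if_neg hm]
    have hc : (I * (m : ℂ)) ≠ 0 := mul_ne_zero I_ne_zero (by exact_mod_cast hm)
    have h1 : (fun y : ℝ => Complex.exp (I * ((m : ℝ) * y : ℝ))) =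
        fun y : ℝ => Complex.exp ((I * (m : ℂ)) * y) := by
      funext y
      push_cast
      ring_nf
    rw [h1, integral_exp_mul_complex hc]
    have h2 : Complex.exp (I * (m : ℂ) * ((a + 2 * Real.pi : ℝ) : ℂ)) = Complex.exp (I * (m : ℂ) * (a : ℂ)) := by
      have h3 : I * (m : ℂ) * ((a + 2 * Real.pi : ℝ) : ℂ) = I * (m : ℂ) * (a : ℂ) + (m : ℂ) * (2 * Real.pi * I) := by
        push_cast
        ring
      rw [h3, Complex.exp_add, Complex.exp_int_mul_two_pi_mul_I, mul_one]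
    rw [h2, sub_self, zero_div]

/-- the rising step -/
def CH_u (δ y : ℝ) : ℝ := Real.smoothTransition ((y + δ) / (2 * δ))

lemma CH_u_zero {δ : ℝ} (h0 : 0 < δ) {y : ℝ} (hy : y ≤ -δ) : CH_u δ y = 0 := by
  unfold CH_u
  apply Real.smoothTransition.zero_of_nonpos
  exact div_nonpos_of_nonpos_of_nonneg (by linarith) (by linarith)

lemma CH_u_one {δ : ℝ} (h0 : 0 < δ) {y : ℝ} (hy : δ ≤ y) : CH_u δ y = 1 := by
  unfold CH_u
  apply Real.smoothTransition.one_of_one_le
  rw [le_div_iff₀ (by linarith)]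
  linarith

lemma CH_u_smooth (δ : ℝ) : ContDiff ℝ ∞ (CH_u δ) := by
  unfold CH_u
  exact Real.smoothTransition.contDiff.comp ((contDiff_id.add contDiff_const).div_const _)

/-- the cutoff -/
def CH_chi (δ y : ℝ) : ℝ :=
  Real.sin (Real.pi / 2 * CH_u δ y) * Real.cos (Real.pi / 2 * CH_u δ (y - 2 * Real.pi))

lemma CH_chi_smooth (δ : ℝ) : ContDiff ℝ ∞ (CH_chi δ) := by
  have h1 : ContDiff ℝ ∞ (fun y => Real.sin (Real.pi / 2 * CH_u δ y)) :=
    Real.contDiff_sin.comp (contDiff_const.mul (CH_u_smooth δ))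
  have h2 : ContDiff ℝ ∞ (fun y => Real.cos (Real.pi / 2 * CH_u δ (y - 2 * Real.pi))) :=
    Real.contDiff_cos.comp (contDiff_const.mul ((CH_u_smooth δ).comp (contDiff_id.sub contDiff_const)))
  exact h1.mul h2

lemma CH_chi_zero {δ : ℝ} (h0 : 0 < δ) {y : ℝ} (hy : y ≤ -δ ∨ 2 * Real.pi + δ ≤ y) : CH_chi δ y = 0 := by
  unfold CH_chi
  rcases hy with hy | hy
  · rw [CH_u_zero h0 hy, mul_zero, Real.sin_zero, zero_mul]
  · rw [CH_u_one h0 (show δ ≤ y - 2 * Real.pi by linarith), mul_one, Real.cos_pi_div_two, mul_zero]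

lemma CH_chi_left {δ : ℝ} (h0 : 0 < δ) {y : ℝ} (hy : y ≤ 2 * Real.pi - δ) :
    CH_chi δ y = Real.sin (Real.pi / 2 * CH_u δ y) := by
  unfold CH_chi
  rw [CH_u_zero h0 (show y - 2 * Real.pi ≤ -δ by linarith), mul_zero, Real.cos_zero, mul_one]

lemma CH_chi_right {δ : ℝ} (h0 : 0 < δ) {y : ℝ} (hy : δ ≤ y) :
    CH_chi δ y = Real.cos (Real.pi / 2 * CH_u δ (y - 2 * Real.pi)) := by
  unfold CH_chi
  rw [CH_u_one h0 hy, mul_one, Real.sin_pi_div_two, one_mul]

lemma CH_chi_supp {δ : ℝ} (h0 : 0 < δ) : HasCompactSupport (CH_chi δ) := by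
  apply HasCompactSupport.intro (isCompact_Icc (a := -δ) (b := 2 * Real.pi + δ))
  intro x hx
  apply CH_chi_zero h0
  rw [mem_Icc, not_and_or, not_le, not_le] at hx
  rcases hx with hx | hx
  · exact Or.inl hx.le
  · exact Or.inr hx.le

lemma CH_orth {δ : ℝ} (h0 : 0 < δ) (h1 : δ < 1) (m : ℤ) :
    ∫ y, ((CH_chi δ y : ℂ) ^ 2 * Complex.exp (I * ((m : ℝ) * y : ℝ))) =
    if m = 0 then (2 * Real.pi : ℂ) else 0 := by
  have hpi := Real.pi_gt_three
  set e : ℝ → ℂ := fun y => Complex.exp (I * ((m : ℝ) * y : ℝ)) with he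
  have hec : Continuous e := by
    rw [he]
    fun_prop
  have hcc : Continuous (CH_chi δ) := (CH_chi_smooth δ).continuous
  have huc : Continuous (CH_u δ) := (CH_u_smooth δ).continuous
  set f : ℝ → ℂ := fun y => (CH_chi δ y : ℂ) ^ 2 * e y with hf
  have hfc : Continuous f := by
    rw [hf]
    exact ((Complex.continuous_ofReal.comp hcc).pow 2).mul hec
  have hsupp : Function.support f ⊆ Ioc (-δ) (2 * Real.pi + δ) := by
    intro y hy
    rw [Function.mem_support] at hy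
    have h3 : CH_chi δ y ≠ 0 := by
      intro h
      apply hy
      simp [hf, h]
    constructor
    · by_contra h
      exact h3 (CH_chi_zero h0 (Or.inl (not_lt.mp h)))
    · by_contra h
      exact h3 (CH_chi_zero h0 (Or.inr (not_le.mp h).le))
  have hii : ∀ a b : ℝ, IntervalIntegrable f volume a b := fun a b => hfc.intervalIntegrable a b
  have hie : ∀ a b : ℝ, IntervalIntegrable e volume a b := fun a b => hec.intervalIntegrable a b
  have hs1 : Continuous (fun y : ℝ => ((Real.sin (Real.pi / 2 * CH_u δ y) : ℝ) : ℂ) ^ 2 * e y) := by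
    have : Continuous (fun y : ℝ => Real.sin (Real.pi / 2 * CH_u δ y)) :=
      Real.continuous_sin.comp (continuous_const.mul huc)
    exact ((Complex.continuous_ofReal.comp this).pow 2).mul hec
  have hs2 : Continuous (fun y : ℝ => ((Real.cos (Real.pi / 2 * CH_u δ y) : ℝ) : ℂ) ^ 2 * e y) := by
    have : Continuous (fun y : ℝ => Real.cos (Real.pi / 2 * CH_u δ y)) :=
      Real.continuous_cos.comp (continuous_const.mul huc)
    exact ((Complex.continuous_ofReal.comp this).pow 2).mul hec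
  have hgoal : (∫ y, f y) = ∫ y in (-δ)..(2 * Real.pi + δ), f y :=
    (intervalIntegral.integral_eq_integral_of_support_subset hsupp).symm
  have hsplit : (∫ y in (-δ)..(2 * Real.pi + δ), f y) =
      (∫ y in (-δ)..δ, f y) + (∫ y in δ..(2 * Real.pi - δ), f y)
        + ∫ y in (2 * Real.pi - δ)..(2 * Real.pi + δ), f y := by
    rw [intervalIntegral.integral_add_adjacent_intervals (hii _ _) (hii _ _),
      intervalIntegral.integral_add_adjacent_intervals (hii _ _) (hii _ _)]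
  have hA : (∫ y in (-δ)..δ, f y) =
      ∫ y in (-δ)..δ, ((Real.sin (Real.pi / 2 * CH_u δ y) : ℝ) : ℂ) ^ 2 * e y := by
    apply intervalIntegral.integral_congr
    intro y hy
    rw [uIcc_of_le (by linarith), mem_Icc] at hy
    show (CH_chi δ y : ℂ) ^ 2 * e y = _
    rw [CH_chi_left h0 (by linarith [hy.2])]
  have hB : (∫ y in δ..(2 * Real.pi - δ), f y) = ∫ y in δ..(2 * Real.pi - δ), e y := by
    apply intervalIntegral.integral_congr
    intro y hy
    rw [uIcc_of_le (by linarith), mem_Icc] at hy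
    show (CH_chi δ y : ℂ) ^ 2 * e y = _
    rw [CH_chi_left h0 (by linarith [hy.2]), CH_u_one h0 hy.1, mul_one, Real.sin_pi_div_two]
    simp
  have hC : (∫ y in (2 * Real.pi - δ)..(2 * Real.pi + δ), f y) =
      ∫ y in (-δ)..δ, ((Real.cos (Real.pi / 2 * CH_u δ y) : ℝ) : ℂ) ^ 2 * e y := by
    have h5 := intervalIntegral.integral_comp_add_right (a := -δ) (b := δ) f (2 * Real.pi)
    have h6 : -δ + 2 * Real.pi = 2 * Real.pi - δ := by ring
    have h7 : δ + 2 * Real.pi = 2 * Real.pi + δ := by ring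
    rw [h6, h7] at h5
    rw [← h5]
    apply intervalIntegral.integral_congr
    intro y hy
    rw [uIcc_of_le (by linarith), mem_Icc] at hy
    show (CH_chi δ (y + 2 * Real.pi) : ℂ) ^ 2 * e (y + 2 * Real.pi) = _
    rw [CH_chi_right h0 (by linarith [hy.1])]
    have h8 : y + 2 * Real.pi - 2 * Real.pi = y := by ring
    have h9 : e (y + 2 * Real.pi) = e y := by
      show Complex.exp (I * ((m : ℝ) * (y + 2 * Real.pi) : ℝ)) = Complex.exp (I * ((m : ℝ) * y : ℝ))
      have h3 : I * (((m : ℝ) * (y + 2 * Real.pi) : ℝ) : ℂ)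
          = I * (((m : ℝ) * y : ℝ) : ℂ) + (m : ℂ) * (2 * Real.pi * I) := by
        push_cast
        ring
      rw [h3, Complex.exp_add, Complex.exp_int_mul_two_pi_mul_I, mul_one]
    rw [h8, h9]
  have hAC : (∫ y in (-δ)..δ, ((Real.sin (Real.pi / 2 * CH_u δ y) : ℝ) : ℂ) ^ 2 * e y)
      + (∫ y in (-δ)..δ, ((Real.cos (Real.pi / 2 * CH_u δ y) : ℝ) : ℂ) ^ 2 * e y)
      = ∫ y in (-δ)..δ, e y := by
    rw [← intervalIntegral.integral_add (hs1.intervalIntegrable _ _) (hs2.intervalIntegrable _ _)]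
    apply intervalIntegral.integral_congr
    intro y _
    show _ + _ = e y
    rw [← add_mul]
    have : ((Real.sin (Real.pi / 2 * CH_u δ y) : ℝ) : ℂ) ^ 2 + ((Real.cos (Real.pi / 2 * CH_u δ y) : ℝ) : ℂ) ^ 2 = 1 := by
      have := Real.sin_sq_add_cos_sq (Real.pi / 2 * CH_u δ y)
      exact_mod_cast this
    rw [this, one_mul]
  have hsum : (∫ y in (-δ)..δ, e y) + (∫ y in δ..(2 * Real.pi - δ), e y)
      = ∫ y in (-δ)..(-δ + 2 * Real.pi), e y := by
    rw [intervalIntegral.integral_add_adjacent_intervals (hie _ _) (hie _ _)]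
    congr 1
    ring
  show (∫ y, f y) = _
  rw [hgoal, hsplit, hA, hB, hC, ← CH_e m (-δ), ← hsum, ← hAC]
  ring

theorem exists_chi {δ : ℝ} (h0 : 0 < δ) (h1 : δ < 1) : ∃ C1 : ℝ, ∃ χ : ℝ → ℝ, Chi C1 δ χ := by
  have hc : Continuous (deriv (CH_chi δ)) :=
    (CH_chi_smooth δ).continuous_deriv (by simp)
  obtain ⟨C, hC⟩ := hc.bounded_above_of_compact_support (CH_chi_supp h0).deriv
  exact ⟨C, CH_chi δ, CH_chi_smooth δ, fun y hy => CH_chi_zero h0 hy, CH_orth h0 h1, fun y => hC y⟩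

end Pool.Agent.H87.CF
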