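import Pool.Agent.H87.CF.Defs

/-!
ROW CT (80 lines).  Cutoffs `η`.
`σ = Real.smoothTransition` (`Real.smoothTransition.contDiff`, `.zero_of_nonpos`, `.one_of_one_le`, `.nonneg`, `.le_one`).
`CT_der`: `σ'` is bounded: it is continuous (`ContDiff.continuous_deriv`), it vanishes on the open sets `(-∞,0)`, `(1,∞)` (there `σ` is locally constant), so it is bounded by its maximum on the compact `[0,1]`
(`IsCompact.exists_bound_of_continuousOn`).
`η s = σ (s - a + 1) * σ (b + 1 - s)`, `η' = σ'(s-a+1) σ(b+1-s) - σ(s-a+1) σ'(b+1-s)`, so `C0 = 2 sup |σ'|`.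
-/

open MeasureTheory Complex Set Filter Topology
open scoped ENNReal NNReal ContDiff ComplexConjugate

noncomputable section

namespace Pool.Agent.H87.CF

theorem CT_der : ∃ C : ℝ, 0 ≤ C ∧ ∀ s, |deriv Real.smoothTransition s| ≤ C := by
  have hc : Continuous (deriv Real.smoothTransition) :=
    (Real.smoothTransition.contDiff (n := 1)).continuous_deriv le_rfl
  obtain ⟨C, hC⟩ := (isCompact_Icc (a := (0 : ℝ)) (b := 1)).exists_bound_of_continuousOn hc.continuousOn
  refine ⟨max C 0, le_max_right _ _, fun s => ?_⟩
  rcases lt_or_ge s 0 with h | h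
  · have h1 : Real.smoothTransition =ᶠ[𝓝 s] fun _ => (0 : ℝ) := by
      filter_upwards [isOpen_Iio.mem_nhds h] with x hx
      exact Real.smoothTransition.zero_of_nonpos (le_of_lt hx)
    rw [h1.deriv_eq, deriv_const, abs_zero]
    exact le_max_right _ _
  · rcases lt_or_ge 1 s with h' | h'
    · have h1 : Real.smoothTransition =ᶠ[𝓝 s] fun _ => (1 : ℝ) := by
        filter_upwards [isOpen_Ioi.mem_nhds h'] with x hx
        exact Real.smoothTransition.one_of_one_le (le_of_lt hx)
      rw [h1.deriv_eq, deriv_const, abs_zero]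
      exact le_max_right _ _
    · exact (hC s ⟨h, h'⟩).trans (le_max_left _ _)

theorem exists_eta : ∃ C0 : ℝ, 0 ≤ C0 ∧ ∀ a b : ℝ, a ≤ b → ∃ η : ℝ → ℝ, Eta C0 a b η := by
  obtain ⟨C, hC0, hC⟩ := CT_der
  refine ⟨2 * C, by positivity, fun a b hab =>
    ⟨fun s => Real.smoothTransition (s - a + 1) * Real.smoothTransition (b + 1 - s), ?_, ?_, ?_, ?_, ?_⟩⟩
  · apply ContDiff.mul
    · exact (Real.smoothTransition.contDiff (n := ⊤)).comp (by fun_prop)
    · exact (Real.smoothTransition.contDiff (n := ⊤)).comp (by fun_prop)
  · intro s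
    refine ⟨mul_nonneg (Real.smoothTransition.nonneg _) (Real.smoothTransition.nonneg _), ?_⟩
    exact mul_le_one₀ (Real.smoothTransition.le_one _) (Real.smoothTransition.nonneg _)
      (Real.smoothTransition.le_one _)
  · intro s h1 h2
    show Real.smoothTransition (s - a + 1) * Real.smoothTransition (b + 1 - s) = 1
    rw [Real.smoothTransition.one_of_one_le (by linarith), Real.smoothTransition.one_of_one_le (by linarith), mul_one]
  · intro s h
    show Real.smoothTransition (s - a + 1) * Real.smoothTransition (b + 1 - s) = 0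
    rcases h with h | h
    · rw [Real.smoothTransition.zero_of_nonpos (by linarith), zero_mul]
    · rw [Real.smoothTransition.zero_of_nonpos (x := b + 1 - s) (by linarith), mul_zero]
  · intro s
    have hd : Differentiable ℝ Real.smoothTransition :=
      (Real.smoothTransition.contDiff (n := 1)).differentiable one_ne_zero
    have e1 : HasDerivAt (fun s : ℝ => Real.smoothTransition (s - a + 1))
        (deriv Real.smoothTransition (s - a + 1) * 1) s := by
      have h1 : HasDerivAt (fun s : ℝ => s - a + 1) 1 s := by
        simpa using ((hasDerivAt_id s).sub_const a).add_const 1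
      exact (hd (s - a + 1)).hasDerivAt.comp s h1
    have e2 : HasDerivAt (fun s : ℝ => Real.smoothTransition (b + 1 - s))
        (deriv Real.smoothTransition (b + 1 - s) * (-1)) s := by
      have h1 : HasDerivAt (fun s : ℝ => b + 1 - s) (-1) s := by
        simpa using (hasDerivAt_id s).const_sub (b + 1)
      exact (hd (b + 1 - s)).hasDerivAt.comp s h1
    have e3 := (e1.mul e2).deriv
    have e4 : deriv (fun s : ℝ => Real.smoothTransition (s - a + 1) * Real.smoothTransition (b + 1 - s)) s =
        deriv Real.smoothTransition (s - a + 1) * 1 * Real.smoothTransition (b + 1 - s) +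
          Real.smoothTransition (s - a + 1) * (deriv Real.smoothTransition (b + 1 - s) * (-1)) := e3
    rw [e4]
    have n1 := Real.smoothTransition.nonneg (s - a + 1)
    have n2 := Real.smoothTransition.nonneg (b + 1 - s)
    have l1 := Real.smoothTransition.le_one (s - a + 1)
    have l2 := Real.smoothTransition.le_one (b + 1 - s)
    refine (abs_add_le _ _).trans ?_
    rw [abs_mul, abs_mul, abs_mul, abs_mul, abs_neg, abs_one, mul_one, mul_one, abs_of_nonneg n1, abs_of_nonneg n2]
    have h1 := hC (s - a + 1)
    have h2 := hC (b + 1 - s)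
    have h3 : |deriv Real.smoothTransition (s - a + 1)| * Real.smoothTransition (b + 1 - s) ≤ C * 1 :=
      mul_le_mul h1 l2 n2 hC0
    have h4 : Real.smoothTransition (s - a + 1) * |deriv Real.smoothTransition (b + 1 - s)| ≤ 1 * C :=
      mul_le_mul l1 h2 (abs_nonneg _) zero_le_one
    linarith

end Pool.Agent.H87.CF
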