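import Pool.Agent.H87.CF.GI

open MeasureTheory Complex Set Filter Topology
open scoped ENNReal NNReal ContDiff ComplexConjugate

noncomputable section

/-!
ROW OE (150 lines).  One-dimensional energies of `Fc η B k s = η s * gs B k s`.
Here `Eta C0 a b η` with `a = -(N/B) - 1`, `b = 1`, so `η s = 1` if `|s + k/B| ≤ 1` (`0 ≤ k < N`), in particular `η' = 0` if `|s + k/B| < 1` (locally constant) and, by continuity of `η'` (or: closed ball, limit), if `|s + k/B| ≤ 1`.
* `Fc_smooth`, `Fc_zero`: immediate (`gs` is smooth); `Fc_supp`: compact support, `HasCompactSupport.intro isCompact_Icc`.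
* `oe_le`: `η ≤ 1`.
* `oe_ge`: `∫ Fc² ≥ ∫_{|s+k/B| ≤ 1} gs² = ∫ gs² - ∫_{|..|>1} gs²` (`gs_int`, `gs_tail`, `integral_add_compl`).
* `Fc_deriv`: `deriv (Fc η B k) s = η' gs - η (B s + k) gs`.
* `oe_p`: `(a - b)² ≤ (1+ε) b² + (1+1/ε) a²` with `a = η' gs`, `b = η (B s + k) gs`; `a² ≤ C0² gs²` on the tail and `0` elsewhere; `b² ≤ (B s+k)² gs²` (`gs_int2`, `gs_tail`).
* `oe_q`: `η² ≤ 1`, `gs_int2`.
-/

namespace Pool.Agent.H87.CF

variable {N : ℕ} {C0 B ε : ℝ} {η : ℝ → ℝ}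

theorem OE_gs_smooth (B : ℝ) (k : ℕ) : ContDiff ℝ ∞ (gs B k) := by
  unfold gs
  fun_prop

theorem OE_gs_hd (hB : 0 < B) (k : ℕ) (s : ℝ) : HasDerivAt (gs B k) (-(B * s + k) * gs B k s) s := by
  have h1 : HasDerivAt (fun s : ℝ => B * s + k) B s := by
    have := ((hasDerivAt_id s).const_mul B).add_const (k : ℝ)
    simpa using this
  have h2 := ((h1.pow 2).neg.div_const (2 * B)).exp
  refine HasDerivAt.congr_deriv (f := gs B k) h2 ?_
  have hB' : B ≠ 0 := hB.ne'
  have e : gs B k s = Real.exp (-(B * s + k) ^ 2 / (2 * B)) := rfl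
  rw [e]
  simp only [Nat.cast_ofNat, Pi.pow_apply, Pi.neg_apply]
  have e2 : -(2 * (B * s + (k : ℝ)) ^ (2 - 1) * B) / (2 * B) = -(B * s + k) := by
    field_simp
    norm_num
  rw [e2]
  ring

theorem Fc_smooth (h : Eta C0 (-(N / B) - 1) 1 η) (k : Fin N) : ContDiff ℝ ∞ (Fc η B k) := by
  unfold Fc
  exact h.smooth.mul (OE_gs_smooth B k)

theorem Fc_zero (h : Eta C0 (-(N / B) - 1) 1 η) (k : Fin N) (s : ℝ) (hs : s ≤ -(N / B) - 2 ∨ 2 ≤ s) :
    Fc η B k s = 0 := by
  unfold Fc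
  rw [h.zero s, zero_mul]
  rcases hs with hs | hs
  · left; linarith
  · right; linarith

theorem Fc_supp (h : Eta C0 (-(N / B) - 1) 1 η) (k : Fin N) : HasCompactSupport (Fc η B k) := by
  refine HasCompactSupport.intro (isCompact_Icc (a := -(N / B) - 2) (b := 2)) ?_
  intro s hs
  apply Fc_zero h k s
  by_contra hc
  push Not at hc
  exact hs ⟨hc.1.le, hc.2.le⟩

theorem Fc_deriv (h : Eta C0 (-(N / B) - 1) 1 η) (hB : 0 < B) (k : Fin N) (s : ℝ) :
    deriv (Fc η B k) s = deriv η s * gs B k s - (B * s + k) * Fc η B k s := by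
  have h1 : HasDerivAt η (deriv η s) s := (h.smooth.differentiable (by simp) s).hasDerivAt
  have h2 := h1.mul (OE_gs_hd hB k s)
  have h3 : deriv (Fc η B k) s = deriv η s * gs B k s + η s * (-(B * s + k) * gs B k s) := h2.deriv
  rw [h3]
  unfold Fc
  ring

/-- the set where the cutoff is one -/
theorem OE_one (h : Eta C0 (-(N / B) - 1) 1 η) (hB : 0 < B) (k : Fin N) (s : ℝ)
    (hs : ¬ 1 < |s + k / B|) : η s = 1 := by
  have h1 : |s + k / B| ≤ 1 := not_lt.1 hs
  rw [abs_le] at h1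
  have h2 : ((k : ℕ) : ℝ) / B ≤ N / B := by
    apply div_le_div_of_nonneg_right _ hB.le
    exact_mod_cast k.2.le
  have h3 : 0 ≤ ((k : ℕ) : ℝ) / B := by positivity
  apply h.one s
  · linarith [h1.1]
  · linarith [h1.2]

theorem OE_der (h : Eta C0 (-(N / B) - 1) 1 η) (hB : 0 < B) (k : Fin N) (s : ℝ)
    (hs : ¬ 1 < |s + k / B|) : deriv η s = 0 := by
  have h1 := OE_one h hB k s hs
  have h2 : IsLocalMax η s := by
    refine Eventually.of_forall fun t => ?_
    rw [h1]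
    exact (h.bd t).2
  exact h2.deriv_eq_zero

theorem OE_meas (k : Fin N) : MeasurableSet {s : ℝ | 1 < |s + k / B|} :=
  measurableSet_lt measurable_const (by fun_prop)

theorem OE_gs_cont (B : ℝ) (k : ℕ) : Continuous (gs B k) := (OE_gs_smooth B k).continuous

theorem oe_ge (h : Eta C0 (-(N / B) - 1) 1 η) (hB : 0 < B) (k : Fin N) :
    (1 - 2 * Real.exp (-B / 2)) * GG B ≤ ∫ s, (Fc η B k s) ^ 2 := by
  obtain ⟨hi, he⟩ := gs_int hB k
  have ht := gs_tail hB k
  have hm := OE_meas (B := B) k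
  have hF : Integrable (fun s => (Fc η B k s) ^ 2) := by
    have h1 : Continuous (fun s => (Fc η B k s) ^ 2) := (Fc_smooth h k).continuous.pow 2
    refine h1.integrable_of_hasCompactSupport ?_
    exact (Fc_supp h k).comp_left (g := fun t : ℝ => t ^ 2) (by norm_num)
  have h1 := integral_add_compl hm hi
  have h2 := integral_add_compl hm hF
  have h3 : ∫ s in {s : ℝ | 1 < |s + k / B|}ᶜ, (Fc η B k s) ^ 2 =
      ∫ s in {s : ℝ | 1 < |s + k / B|}ᶜ, (gs B k s) ^ 2 := by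
    refine setIntegral_congr_fun hm.compl fun s hs => ?_
    show (Fc η B k s) ^ 2 = (gs B k s) ^ 2
    unfold Fc
    rw [OE_one h hB k s hs, one_mul]
  have h4 : 0 ≤ ∫ s in {s : ℝ | 1 < |s + k / B|}, (Fc η B k s) ^ 2 :=
    setIntegral_nonneg hm fun s _ => sq_nonneg _
  rw [he] at h1
  rw [h3] at h2
  linarith

theorem oe_p (h : Eta C0 (-(N / B) - 1) 1 η) (hB : 0 < B) (hε : 0 < ε) (k : Fin N) :
    ∫ s, (deriv (Fc η B k) s) ^ 2 ≤
      ((1 + ε) * (B / 2) + (1 + 1 / ε) * (C0 ^ 2 * (2 * Real.exp (-B / 2)))) * GG B := by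
  obtain ⟨hi, he⟩ := gs_int hB k
  obtain ⟨hi2, he2⟩ := gs_int2 hB k
  have ht := gs_tail hB k
  have hm := OE_meas (B := B) k
  set S : Set ℝ := {s : ℝ | 1 < |s + k / B|} with hS
  have hi3 : Integrable (S.indicator fun s => (gs B k s) ^ 2) := hi.indicator hm
  have hg : Integrable (fun s => (1 + ε) * ((B * s + k) ^ 2 * (gs B k s) ^ 2) +
      (1 + 1 / ε) * (C0 ^ 2 * S.indicator (fun s => (gs B k s) ^ 2) s)) :=
    (hi2.const_mul _).add ((hi3.const_mul _).const_mul _)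
  have hle : ∫ s, (deriv (Fc η B k) s) ^ 2 ≤ ∫ s, ((1 + ε) * ((B * s + k) ^ 2 * (gs B k s) ^ 2) +
      (1 + 1 / ε) * (C0 ^ 2 * S.indicator (fun s => (gs B k s) ^ 2) s)) := by
    refine integral_mono_of_nonneg (Eventually.of_forall fun s => sq_nonneg _) hg
      (Eventually.of_forall fun s => ?_)
    show (deriv (Fc η B k) s) ^ 2 ≤ _
    rw [Fc_deriv h hB k s]
    have hyoung : ∀ a b : ℝ, (a - b) ^ 2 ≤ (1 + ε) * b ^ 2 + (1 + 1 / ε) * a ^ 2 := by
      intro a b
      have e1 : (1 + ε) * b ^ 2 + (1 + 1 / ε) * a ^ 2 - (a - b) ^ 2 = (ε * b + a) ^ 2 / ε := by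
        field_simp
        ring
      have e2 : 0 ≤ (ε * b + a) ^ 2 / ε := by positivity
      linarith
    refine (hyoung _ _).trans ?_
    have hb := h.bd s
    have hη : (η s) ^ 2 ≤ 1 := by nlinarith [hb.1, hb.2]
    have e3 : ((B * s + k) * Fc η B k s) ^ 2 ≤ (B * s + k) ^ 2 * (gs B k s) ^ 2 := by
      unfold Fc
      have : ((B * s + k) * (η s * gs B k s)) ^ 2 = (η s) ^ 2 * ((B * s + k) ^ 2 * (gs B k s) ^ 2) := by
        ring
      rw [this]
      have hp : 0 ≤ (B * s + k) ^ 2 * (gs B k s) ^ 2 := by positivity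
      nlinarith
    have e4 : (deriv η s * gs B k s) ^ 2 ≤ C0 ^ 2 * S.indicator (fun s => (gs B k s) ^ 2) s := by
      by_cases hs : s ∈ S
      · rw [indicator_of_mem hs]
        have h1 := h.der s
        have h2 : (deriv η s) ^ 2 ≤ C0 ^ 2 := by
          rw [← sq_abs (deriv η s)]
          exact pow_le_pow_left₀ (abs_nonneg _) h1 2
        rw [mul_pow]
        exact mul_le_mul_of_nonneg_right h2 (sq_nonneg _)
      · rw [indicator_of_notMem hs, OE_der h hB k s hs]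
        simp
    have p1 : 0 ≤ 1 + ε := by linarith
    have p2 : 0 ≤ 1 + 1 / ε := by positivity
    exact add_le_add (mul_le_mul_of_nonneg_left e3 p1) (mul_le_mul_of_nonneg_left e4 p2)
  refine hle.trans ?_
  rw [integral_add (hi2.const_mul _) ((hi3.const_mul _).const_mul _), integral_const_mul,
    integral_const_mul, integral_const_mul, he2, integral_indicator hm]
  have p2 : 0 ≤ (1 + 1 / ε) * C0 ^ 2 := by positivity
  have := mul_le_mul_of_nonneg_left ht p2
  nlinarith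

theorem oe_q (h : Eta C0 (-(N / B) - 1) 1 η) (hB : 0 < B) (k : Fin N) :
    ∫ s, ((B * s + k) * Fc η B k s) ^ 2 ≤ B / 2 * GG B := by
  obtain ⟨hi2, he2⟩ := gs_int2 hB k
  rw [← he2]
  refine integral_mono_of_nonneg (Eventually.of_forall fun s => sq_nonneg _) hi2
    (Eventually.of_forall fun s => ?_)
  show ((B * s + k) * Fc η B k s) ^ 2 ≤ (B * s + k) ^ 2 * (gs B k s) ^ 2
  have hb := h.bd s
  have hη : (η s) ^ 2 ≤ 1 := by nlinarith [hb.1, hb.2]
  unfold Fc
  have : ((B * s + k) * (η s * gs B k s)) ^ 2 = (η s) ^ 2 * ((B * s + k) ^ 2 * (gs B k s) ^ 2) := by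
    ring
  rw [this]
  have hp : 0 ≤ (B * s + k) ^ 2 * (gs B k s) ^ 2 := by positivity
  nlinarith

end Pool.Agent.H87.CF
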