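import Pool.Agent.H87.CF.OR
import Pool.Agent.H87.CF.OE

/-!
ROW CV (150 lines).  Covariant derivatives of `S0 F E c`.
`S0_smooth`: finite sums and products of smooth functions of one coordinate (`contDiff_prod`/`ContDiff.sum`, coordinates are continuous linear: `contDiff_apply`, `Complex.ofRealCLM.contDiff`).
`cov_x`: `fderiv ℝ u x (Pi.single i 1)` is the derivative at `0` of `t ↦ u (x + t • Pi.single i 1)` (`HasFDerivAt`/`fderiv` of a finite sum; for one product the derivative in the coordinate `x_{j0}`: write the product as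
(factor `j0`) times (the others, `Finset.mul_prod_erase`), the others do not depend on `x_{j0}`). `A` has component `0` there (`Fin.addCases_left`).
`cov_y`: the same for `y_{j0}`, `A` has component `B x_{j0}` (`Fin.addCases_right`), and `E k' = I k E k + D k`:
`∂ + I B x_{j0}` acting on `F_k(x_{j0}) E_k(y_{j0})` gives `F_k (I k E_k + D_k) + I B x_{j0} F_k E_k = ((B x_{j0} + k) F_k) (I E_k) + F_k D_k`.
`Ech_deriv`: `(χ e^{iky})' = χ' e^{iky} + i k χ e^{iky}`.
-/

open MeasureTheory Complex Set Filter Topology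
open scoped ENNReal NNReal ContDiff ComplexConjugate

noncomputable section

namespace Pool.Agent.H87.CF

open Pool.Agent.H2.LTM

theorem S0_smooth {n N : ℕ} {F : Fin N → ℝ → ℝ} {E : Fin N → ℝ → ℂ}
    (hF : ∀ k, ContDiff ℝ ∞ (F k)) (hE : ∀ k, ContDiff ℝ ∞ (E k)) (c : (Fin n → Fin N) → ℂ) :
    ContDiff ℝ ∞ (S0 F E c) := by
  unfold S0
  refine ContDiff.sum fun κ _ => contDiff_const.mul (contDiff_prod fun j _ => ?_)
  refine ContDiff.mul ?_ ?_
  · exact Complex.ofRealCLM.contDiff.comp ((hF (κ j)).comp (contDiff_apply ℝ ℝ _))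
  · exact (hE (κ j)).comp (contDiff_apply ℝ ℝ _)

theorem CV_erase {n : ℕ} (f : Fin n → ℂ) (j0 : Fin n) :
    ∏ j, f j = f j0 * ∏ j ∈ Finset.univ.erase j0, f j :=
  (Finset.mul_prod_erase Finset.univ f (Finset.mem_univ j0)).symm

theorem CV_if {n : ℕ} (f g : Fin n → ℂ) (j0 : Fin n) :
    ∏ j, (if j = j0 then g j else f j) = g j0 * ∏ j ∈ Finset.univ.erase j0, f j := by
  rw [CV_erase _ j0, if_pos rfl]
  congr 1
  refine Finset.prod_congr rfl fun j hj => ?_
  rw [if_neg (Finset.ne_of_mem_erase hj)]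

theorem CV_prod {n : ℕ} (f : Fin n → ℝ → ℂ) (j0 : Fin n) (a : Fin n → ℂ)
    (h : ∀ j, HasDerivAt (f j) (if j = j0 then a j else 0) 0) :
    HasDerivAt (fun t => ∏ j, f j t) (∏ j, (if j = j0 then a j else f j 0)) 0 := by
  have h1 := HasDerivAt.fun_finsetProd (u := Finset.univ) (f := f) (x := (0:ℝ)) fun j _ => h j
  refine h1.congr_deriv ?_
  rw [CV_if, Finset.sum_eq_single j0]
  · rw [if_pos rfl, smul_eq_mul, mul_comm]
  · intro j _ hj
    rw [if_neg hj, smul_zero]
  · intro hj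
    exact absurd (Finset.mem_univ _) hj

theorem CV_fd {n N : ℕ} {F : Fin N → ℝ → ℝ} {E : Fin N → ℝ → ℂ}
    (hF : ∀ k, ContDiff ℝ ∞ (F k)) (hE : ∀ k, ContDiff ℝ ∞ (E k)) (c : (Fin n → Fin N) → ℂ)
    (j0 : Fin n) (x v : Sp (n + n)) (a : Fin N → ℂ)
    (h : ∀ k j, HasDerivAt (fun t : ℝ => (F k ((x + t • v) (Fin.castAdd n j)) : ℂ) *
      E k ((x + t • v) (Fin.natAdd n j))) (if j = j0 then a k else 0) 0) :
    fderiv ℝ (S0 F E c) x v = ∑ κ : Fin n → Fin N, c κ * ∏ j : Fin n,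
      if j = j0 then a (κ j)
      else (F (κ j) (x (Fin.castAdd n j)) : ℂ) * E (κ j) (x (Fin.natAdd n j)) := by
  have hd : DifferentiableAt ℝ (S0 F E c) x :=
    (S0_smooth hF hE c).contDiffAt.differentiableAt (by simp)
  have hl : HasDerivAt (fun t : ℝ => x + t • v) v 0 := by
    have h1 := ((hasDerivAt_id (0:ℝ)).smul_const v).const_add x
    rw [one_smul] at h1
    exact h1
  have hx : x + (0:ℝ) • v = x := by rw [zero_smul, add_zero]
  have h2 : HasDerivAt (fun t : ℝ => S0 F E c (x + t • v)) (fderiv ℝ (S0 F E c) x v) 0 := by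
    have h3 : HasFDerivAt (S0 F E c) (fderiv ℝ (S0 F E c) x) (x + (0:ℝ) • v) := by
      rw [hx]
      exact hd.hasFDerivAt
    exact h3.comp_hasDerivAt (0:ℝ) hl
  have h4 : HasDerivAt (fun t : ℝ => S0 F E c (x + t • v)) (∑ κ : Fin n → Fin N, c κ *
      ∏ j : Fin n, if j = j0 then a (κ j)
      else (F (κ j) (x (Fin.castAdd n j)) : ℂ) * E (κ j) (x (Fin.natAdd n j))) 0 := by
    unfold S0
    refine HasDerivAt.fun_sum fun κ _ => HasDerivAt.const_mul (c κ) ?_
    have h5 := CV_prod (fun j t => (F (κ j) ((x + t • v) (Fin.castAdd n j)) : ℂ) *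
      E (κ j) ((x + t • v) (Fin.natAdd n j))) j0 (fun j => a (κ j)) (fun j => h (κ j) j)
    refine h5.congr_deriv ?_
    refine Finset.prod_congr rfl fun j _ => ?_
    rw [hx]
  exact h2.unique h4

theorem CV_ofReal {f : ℝ → ℝ} {f' s : ℝ} (h : HasDerivAt f f' s) :
    HasDerivAt (fun t => (f t : ℂ)) (f' : ℂ) s := h.ofReal_comp

theorem CV_ne {n : ℕ} (i j : Fin n) : Fin.castAdd n i ≠ Fin.natAdd n j := by
  intro h
  have h1 := congrArg Fin.val h
  simp at h1
  omega

theorem CV_hd {f : ℝ → ℂ} (h : ContDiff ℝ ∞ f) (s : ℝ) : HasDerivAt f (deriv f s) s :=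
  (h.contDiffAt.differentiableAt (by simp)).hasDerivAt

theorem CV_hdr {f : ℝ → ℝ} (h : ContDiff ℝ ∞ f) (s : ℝ) : HasDerivAt f (deriv f s) s :=
  (h.contDiffAt.differentiableAt (by simp)).hasDerivAt

theorem cov_x {n N : ℕ} {F : Fin N → ℝ → ℝ} {E : Fin N → ℝ → ℂ} (B : ℝ)
    (hF : ∀ k, ContDiff ℝ ∞ (F k)) (hE : ∀ k, ContDiff ℝ ∞ (E k)) (c : (Fin n → Fin N) → ℂ)
    (j0 : Fin n) (x : Sp (n + n)) :
    cov (AA n B) (S0 F E c) (Fin.castAdd n j0) x = SS F E (fun k s => deriv (F k) s) E j0 c x := by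
  have key : ∀ k j, HasDerivAt (fun t : ℝ =>
      (F k ((x + t • (Pi.single (Fin.castAdd n j0) 1 : Sp (n + n))) (Fin.castAdd n j)) : ℂ) *
      E k ((x + t • (Pi.single (Fin.castAdd n j0) 1 : Sp (n + n))) (Fin.natAdd n j)))
      (if j = j0 then ((deriv (F k) (x (Fin.castAdd n j0)) : ℝ) : ℂ) * E k (x (Fin.natAdd n j0)) else 0)
      0 := by
    intro k j
    have e2 : ∀ t : ℝ, (x + t • (Pi.single (Fin.castAdd n j0) 1 : Sp (n + n))) (Fin.natAdd n j)
        = x (Fin.natAdd n j) := by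
      intro t
      rw [Pi.add_apply, Pi.smul_apply, Pi.single_eq_of_ne (CV_ne j0 j).symm, smul_zero, add_zero]
    by_cases hj : j = j0
    · subst hj
      rw [if_pos rfl]
      have e1 : ∀ t : ℝ, (x + t • (Pi.single (Fin.castAdd n j) 1 : Sp (n + n))) (Fin.castAdd n j)
          = x (Fin.castAdd n j) + t := by
        intro t
        rw [Pi.add_apply, Pi.smul_apply, Pi.single_eq_same, smul_eq_mul, mul_one]
      simp_rw [e1, e2]
      have h1 : HasDerivAt (fun t : ℝ => x (Fin.castAdd n j) + t) 1 0 :=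
        (hasDerivAt_id (0:ℝ)).const_add _
      have h2 : HasDerivAt (F k) (deriv (F k) (x (Fin.castAdd n j))) (x (Fin.castAdd n j) + 0) := by
        rw [add_zero]
        exact CV_hdr (hF k) _
      have h3 := (CV_ofReal (h2.comp (0:ℝ) h1)).mul_const (E k (x (Fin.natAdd n j)))
      rw [mul_one] at h3
      exact h3
    · rw [if_neg hj]
      have e1 : ∀ t : ℝ, (x + t • (Pi.single (Fin.castAdd n j0) 1 : Sp (n + n))) (Fin.castAdd n j)
          = x (Fin.castAdd n j) := by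
        intro t
        rw [Pi.add_apply, Pi.smul_apply, Pi.single_eq_of_ne, smul_zero, add_zero]
        intro h
        exact hj (Fin.castAdd_injective n n h)
      simp_rw [e1, e2]
      exact hasDerivAt_const _ _
  have h := CV_fd hF hE c j0 x _ _ key
  unfold cov
  rw [h]
  have hA : AA n B x (Fin.castAdd n j0) = 0 := by
    unfold AA
    rw [Fin.addCases_left]
  rw [hA, Complex.ofReal_zero, mul_zero, zero_mul, add_zero]
  unfold SS
  refine Finset.sum_congr rfl fun κ _ => ?_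
  congr 1
  refine Finset.prod_congr rfl fun j _ => ?_
  by_cases hj : j = j0
  · rw [if_pos hj, if_pos hj, hj]
  · rw [if_neg hj, if_neg hj]

theorem cov_y {n N : ℕ} {F : Fin N → ℝ → ℝ} {E D : Fin N → ℝ → ℂ} (B : ℝ)
    (hF : ∀ k, ContDiff ℝ ∞ (F k)) (hE : ∀ k, ContDiff ℝ ∞ (E k))
    (hD : ∀ k y, deriv (E k) y = I * (k : ℕ) * E k y + D k y) (c : (Fin n → Fin N) → ℂ)
    (j0 : Fin n) (x : Sp (n + n)) :
    cov (AA n B) (S0 F E c) (Fin.natAdd n j0) x =
      SS F E (fun k s => (B * s + (k : ℕ)) * F k s) (fun k y => I * E k y) j0 c x +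
        SS F E F D j0 c x := by
  have key : ∀ k j, HasDerivAt (fun t : ℝ =>
      (F k ((x + t • (Pi.single (Fin.natAdd n j0) 1 : Sp (n + n))) (Fin.castAdd n j)) : ℂ) *
      E k ((x + t • (Pi.single (Fin.natAdd n j0) 1 : Sp (n + n))) (Fin.natAdd n j)))
      (if j = j0 then (F k (x (Fin.castAdd n j0)) : ℂ) * deriv (E k) (x (Fin.natAdd n j0)) else 0)
      0 := by
    intro k j
    have e1 : ∀ t : ℝ, (x + t • (Pi.single (Fin.natAdd n j0) 1 : Sp (n + n))) (Fin.castAdd n j)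
        = x (Fin.castAdd n j) := by
      intro t
      rw [Pi.add_apply, Pi.smul_apply, Pi.single_eq_of_ne (CV_ne j j0), smul_zero, add_zero]
    by_cases hj : j = j0
    · subst hj
      rw [if_pos rfl]
      have e2 : ∀ t : ℝ, (x + t • (Pi.single (Fin.natAdd n j) 1 : Sp (n + n))) (Fin.natAdd n j)
          = x (Fin.natAdd n j) + t := by
        intro t
        rw [Pi.add_apply, Pi.smul_apply, Pi.single_eq_same, smul_eq_mul, mul_one]
      simp_rw [e1, e2]
      have h1 : HasDerivAt (fun t : ℝ => x (Fin.natAdd n j) + t) 1 0 :=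
        (hasDerivAt_id (0:ℝ)).const_add _
      have h2 : HasDerivAt (E k) (deriv (E k) (x (Fin.natAdd n j))) (x (Fin.natAdd n j) + 0) := by
        rw [add_zero]
        exact CV_hd (hE k) _
      have h3 := (h2.scomp (0:ℝ) h1).const_mul (F k (x (Fin.castAdd n j)) : ℂ)
      rw [one_smul] at h3
      exact h3
    · rw [if_neg hj]
      have e2 : ∀ t : ℝ, (x + t • (Pi.single (Fin.natAdd n j0) 1 : Sp (n + n))) (Fin.natAdd n j)
          = x (Fin.natAdd n j) := by
        intro t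
        rw [Pi.add_apply, Pi.smul_apply, Pi.single_eq_of_ne, smul_zero, add_zero]
        intro h
        exact hj (Fin.natAdd_injective n n h)
      simp_rw [e1, e2]
      exact hasDerivAt_const _ _
  have h := CV_fd hF hE c j0 x _ _ key
  unfold cov
  rw [h]
  have hA : AA n B x (Fin.natAdd n j0) = B * x (Fin.castAdd n j0) := by
    unfold AA
    rw [Fin.addCases_right]
  rw [hA]
  unfold SS S0
  rw [Finset.mul_sum, ← Finset.sum_add_distrib, ← Finset.sum_add_distrib]
  refine Finset.sum_congr rfl fun κ _ => ?_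
  rw [CV_if, CV_if, CV_if, CV_erase _ j0, hD]
  push_cast
  ring

theorem Ech_smooth {N : ℕ} {C1 δ : ℝ} {χ : ℝ → ℝ} (h : Chi C1 δ χ) (k : Fin N) :
    ContDiff ℝ ∞ (Ech χ k) := by
  have h1 : ContDiff ℝ ∞ (fun y : ℝ => (χ y : ℂ)) := Complex.ofRealCLM.contDiff.comp h.smooth
  have h2 : ContDiff ℝ ∞ (ex k) := by
    unfold ex
    refine Complex.contDiff_exp.comp (contDiff_const.mul ?_)
    exact Complex.ofRealCLM.contDiff.comp (contDiff_const.mul contDiff_id)
  exact h1.mul h2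

theorem CV_ex (k : ℕ) (y : ℝ) : HasDerivAt (ex k) (I * (k : ℂ) * ex k y) y := by
  have h1 : HasDerivAt (fun y : ℝ => (k : ℝ) * y) (k : ℝ) y := by
    have h := (hasDerivAt_id y).const_mul (k : ℝ)
    rw [mul_one] at h
    exact h
  have h2 := (CV_ofReal h1).const_mul I
  have h3 := h2.cexp
  unfold ex
  refine h3.congr_deriv ?_
  push_cast
  ring

theorem Ech_deriv {N : ℕ} {C1 δ : ℝ} {χ : ℝ → ℝ} (h : Chi C1 δ χ) (k : Fin N) (y : ℝ) :
    deriv (Ech χ k) y = I * (k : ℕ) * Ech χ k y + ((deriv χ y : ℝ) : ℂ) * ex k y := by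
  have h1 := CV_ofReal (CV_hdr h.smooth y)
  have h2 := CV_ex (k : ℕ) y
  have h3 := h1.mul h2
  have h4 : deriv (Ech χ k) y = ((deriv χ y : ℝ) : ℂ) * ex k y + (χ y : ℂ) * (I * ((k : ℕ) : ℂ) * ex k y) :=
    HasDerivAt.deriv h3
  rw [h4]
  unfold Ech
  ring

end Pool.Agent.H87.CF
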