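import Pool.Agent.H2.LTM.CNT

/-!
# CF: lower bound for the magnetic Lieb–Thirring constants from constant fields (helper87, MP_e22489_mp)

Dimension `n + n`, coordinates `x_j = x (Fin.castAdd n j)`, `y_j = x (Fin.natAdd n j)`.
The definitions of the statements are those of `Pool/Agent/H2/LTM/SDefs.lean`.
-/

open MeasureTheory Complex Set Filter Topology
open scoped ENNReal NNReal ContDiff ComplexConjugate

noncomputable section

namespace Pool.Agent.H87.CF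

open Pool.Agent.H2.LTM

/-- vector potential of a constant field of strength `B` in each plane `(x_j, y_j)`: `A = (0, B x_j)` -/
def AA (n : ℕ) (B : ℝ) (x : Sp (n + n)) : Sp (n + n) :=
  Fin.addCases (fun _ => 0) (fun j => B * x (Fin.castAdd n j))

/-- linear combination of the products `∏_j F_{κ_j}(x_j) E_{κ_j}(y_j)` -/
def S0 {n N : ℕ} (F : Fin N → ℝ → ℝ) (E : Fin N → ℝ → ℂ) (c : (Fin n → Fin N) → ℂ)
    (x : Sp (n + n)) : ℂ :=
  ∑ κ : Fin n → Fin N, c κ * ∏ j : Fin n,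
    ((F (κ j) (x (Fin.castAdd n j)) : ℂ) * E (κ j) (x (Fin.natAdd n j)))

/-- the same with the factors in the plane `j0` replaced by `F'`, `E'` -/
def SS {n N : ℕ} (F : Fin N → ℝ → ℝ) (E : Fin N → ℝ → ℂ) (F' : Fin N → ℝ → ℝ)
    (E' : Fin N → ℝ → ℂ) (j0 : Fin n) (c : (Fin n → Fin N) → ℂ) (x : Sp (n + n)) : ℂ :=
  ∑ κ : Fin n → Fin N, c κ * ∏ j : Fin n,
    if j = j0 then (F' (κ j) (x (Fin.castAdd n j)) : ℂ) * E' (κ j) (x (Fin.natAdd n j))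
    else (F (κ j) (x (Fin.castAdd n j)) : ℂ) * E (κ j) (x (Fin.natAdd n j))

/-- plane wave -/
def ex (k : ℕ) (y : ℝ) : ℂ := Complex.exp (I * ((k : ℝ) * y : ℝ))

/-- plane wave with cutoff -/
def Ech {N : ℕ} (χ : ℝ → ℝ) (k : Fin N) (y : ℝ) : ℂ := (χ y : ℂ) * ex k y

/-- plane wave on the window `[-π, 3π)` -/
def Ww {N : ℕ} (k : Fin N) (y : ℝ) : ℂ := if -Real.pi ≤ y ∧ y < 3 * Real.pi then ex k y else 0

/-- Gaussian centred at `-k/B` -/
def gs (B : ℝ) (k : ℕ) (s : ℝ) : ℝ := Real.exp (-(B * s + k) ^ 2 / (2 * B))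

/-- `∫ gs²` -/
def GG (B : ℝ) : ℝ := √(Real.pi / B)

/-- Gaussian with cutoff -/
def Fc {N : ℕ} (η : ℝ → ℝ) (B : ℝ) (k : Fin N) (s : ℝ) : ℝ := η s * gs B k s

/-- cutoffs in the direction `x` -/
structure Eta (C0 a b : ℝ) (η : ℝ → ℝ) : Prop where
  smooth : ContDiff ℝ ∞ η
  bd : ∀ s, 0 ≤ η s ∧ η s ≤ 1
  one : ∀ s, a ≤ s → s ≤ b → η s = 1
  zero : ∀ s, s ≤ a - 1 ∨ b + 1 ≤ s → η s = 0
  der : ∀ s, |deriv η s| ≤ C0

/-- cutoffs in the direction `y`: the squares of the translates by `2π` form a partition of unity -/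
structure Chi (C1 δ : ℝ) (χ : ℝ → ℝ) : Prop where
  smooth : ContDiff ℝ ∞ χ
  zero : ∀ y, y ≤ -δ ∨ 2 * Real.pi + δ ≤ y → χ y = 0
  orth : ∀ m : ℤ, ∫ y, ((χ y : ℂ) ^ 2 * Complex.exp (I * ((m : ℝ) * y : ℝ))) =
    if m = 0 then (2 * Real.pi : ℂ) else 0
  der : ∀ y, |deriv χ y| ≤ C1

/-- energy per plane -/
def rho (C0 C1 ε B : ℝ) : ℝ :=
  ((1 + ε) * (B / 2) + (1 + 1 / ε) * (C0 ^ 2 * (2 * Real.exp (-B / 2)))) /
      (1 - 2 * Real.exp (-B / 2)) +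
    (1 + ε) * ((B / 2) / (1 - 2 * Real.exp (-B / 2))) + (1 + 1 / ε) * (C1 ^ 2 * 2)

/-- the box containing the supports -/
def bx (n N : ℕ) (B δ : ℝ) : Set (Sp (n + n)) :=
  {x | ∀ j : Fin n, x (Fin.castAdd n j) ∈ Icc (-(N / B) - 2) 2 ∧
    x (Fin.natAdd n j) ∈ Icc (-δ) (2 * Real.pi + δ)}

/-- the potential `μ` on the box -/
def VV (n N : ℕ) (B δ μ : ℝ) : Sp (n + n) → ℝ := (bx n N B δ).indicator (fun _ => μ)

end Pool.Agent.H87.CF
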