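import Pool.Agent.H87.CF.GR

/-!
ROW GC (80 lines).  Comparison of two Gram sums.
`SS_self`: `SS F E F E j0 c = S0 F E c` (`ite_self`).
`gram0`: `gram` with `F' = F`, `E' = E`, and `ite_self`.
`gram_le`: termwise; `∏ j, (if j = j0 then a_j' else a_j) = a_{j0}' * ∏ j ∈ univ.erase j0, a_j` (`Finset.mul_prod_erase`, `Finset.prod_congr`, `Finset.ne_of_mem_erase`) and the same for `∏ j, a_j`; all factors `≥ 0`.
`mass_S0_pos`: `gram0`, some `c κ ≠ 0`, `Finset.prod_pos`, `Finset.sum_pos'`.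
-/

open MeasureTheory Complex Set Filter Topology
open scoped ENNReal NNReal ContDiff ComplexConjugate

noncomputable section

namespace Pool.Agent.H87.CF

open Pool.Agent.H2.LTM

theorem SS_self {n N : ℕ} (F : Fin N → ℝ → ℝ) (E : Fin N → ℝ → ℂ) (j0 : Fin n)
    (c : (Fin n → Fin N) → ℂ) : SS F E F E j0 c = S0 F E c := by
  funext x
  simp only [SS, S0, ite_self]

theorem gram0 {n N : ℕ} (F : Fin N → ℝ → ℝ) (E : Fin N → ℝ → ℂ) (j0 : Fin n)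
    (c : (Fin n → Fin N) → ℂ) {β : ℝ}
    (hF : ∀ k, MemLp (F k) 2 volume) (hE : ∀ k, MemLp (E k) 2 volume)
    (oE : ∀ k l, ∫ y, E k y * conj (E l y) = if k = l then (β : ℂ) else 0) :
    Integrable (fun x => ‖S0 F E c x‖ ^ 2) ∧
    mass (S0 F E c) = ∑ κ : Fin n → Fin N, ‖c κ‖ ^ 2 * ∏ j : Fin n, (β * ∫ s, (F (κ j) s) ^ 2) := by
  have h := gram F F E E j0 c hF hF hE hE oE oE
  rw [SS_self] at h
  simp only [ite_self] at h
  exact ⟨h.1, h.2⟩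

theorem gram_le {n N : ℕ} (F F' : Fin N → ℝ → ℝ) (E E' : Fin N → ℝ → ℂ) (j0 : Fin n)
    (c : (Fin n → Fin N) → ℂ) {β β' r : ℝ}
    (hF : ∀ k, MemLp (F k) 2 volume) (hF' : ∀ k, MemLp (F' k) 2 volume)
    (hE : ∀ k, MemLp (E k) 2 volume) (hE' : ∀ k, MemLp (E' k) 2 volume)
    (oE : ∀ k l, ∫ y, E k y * conj (E l y) = if k = l then (β : ℂ) else 0)
    (oE' : ∀ k l, ∫ y, E' k y * conj (E' l y) = if k = l then (β' : ℂ) else 0)
    (hβ : 0 ≤ β) (hr : ∀ k, β' * ∫ s, (F' k s) ^ 2 ≤ r * (β * ∫ s, (F k s) ^ 2)) :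
    Integrable (fun x => ‖SS F E F' E' j0 c x‖ ^ 2) ∧
    ∫ x, ‖SS F E F' E' j0 c x‖ ^ 2 ≤ r * mass (S0 F E c) := by
  have h := gram F F' E E' j0 c hF hF' hE hE' oE oE'
  refine ⟨h.1, ?_⟩
  rw [h.2, (gram0 F E j0 c hF hE oE).2, Finset.mul_sum]
  refine Finset.sum_le_sum fun κ _ => ?_
  have e1 : (∏ j : Fin n, if j = j0 then β' * ∫ s, (F' (κ j) s) ^ 2
      else β * ∫ s, (F (κ j) s) ^ 2) = (β' * ∫ s, (F' (κ j0) s) ^ 2) *
      ∏ j ∈ Finset.univ.erase j0, (β * ∫ s, (F (κ j) s) ^ 2) := by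
    rw [← Finset.mul_prod_erase Finset.univ _ (Finset.mem_univ j0), if_pos rfl]
    congr 1
    refine Finset.prod_congr rfl fun j hj => ?_
    rw [if_neg (Finset.ne_of_mem_erase hj)]
  have e2 : (∏ j : Fin n, (β * ∫ s, (F (κ j) s) ^ 2)) = (β * ∫ s, (F (κ j0) s) ^ 2) *
      ∏ j ∈ Finset.univ.erase j0, (β * ∫ s, (F (κ j) s) ^ 2) := by
    rw [← Finset.mul_prod_erase Finset.univ _ (Finset.mem_univ j0)]
  have e3 : 0 ≤ ∏ j ∈ Finset.univ.erase j0, (β * ∫ s, (F (κ j) s) ^ 2) :=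
    Finset.prod_nonneg fun j _ => mul_nonneg hβ (integral_nonneg fun s => sq_nonneg _)
  rw [e1, e2]
  have e4 := mul_le_mul_of_nonneg_right (hr (κ j0)) e3
  have e5 := mul_le_mul_of_nonneg_left e4 (sq_nonneg ‖c κ‖)
  calc ‖c κ‖ ^ 2 * ((β' * ∫ s, (F' (κ j0) s) ^ 2) *
      ∏ j ∈ Finset.univ.erase j0, (β * ∫ s, (F (κ j) s) ^ 2))
      ≤ ‖c κ‖ ^ 2 * (r * (β * ∫ s, (F (κ j0) s) ^ 2) *
      ∏ j ∈ Finset.univ.erase j0, (β * ∫ s, (F (κ j) s) ^ 2)) := e5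
    _ = r * (‖c κ‖ ^ 2 * ((β * ∫ s, (F (κ j0) s) ^ 2) *
      ∏ j ∈ Finset.univ.erase j0, (β * ∫ s, (F (κ j) s) ^ 2))) := by ring

theorem mass_S0_pos {n N : ℕ} (F : Fin N → ℝ → ℝ) (E : Fin N → ℝ → ℂ) (j0 : Fin n)
    (c : (Fin n → Fin N) → ℂ) {β : ℝ}
    (hF : ∀ k, MemLp (F k) 2 volume) (hE : ∀ k, MemLp (E k) 2 volume)
    (oE : ∀ k l, ∫ y, E k y * conj (E l y) = if k = l then (β : ℂ) else 0)
    (hβ : 0 < β) (hpos : ∀ k, 0 < ∫ s, (F k s) ^ 2) (hc : c ≠ 0) : 0 < mass (S0 F E c) := by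
  rw [(gram0 F E j0 c hF hE oE).2]
  have hp : ∀ κ : Fin n → Fin N, 0 < ∏ j : Fin n, (β * ∫ s, (F (κ j) s) ^ 2) := fun κ =>
    Finset.prod_pos fun j _ => mul_pos hβ (hpos _)
  obtain ⟨κ, hκ⟩ : ∃ κ, c κ ≠ 0 := by
    by_contra hcon
    push Not at hcon
    exact hc (funext hcon)
  refine Finset.sum_pos' (fun κ _ => mul_nonneg (sq_nonneg _) (hp κ).le) ⟨κ, Finset.mem_univ _, ?_⟩
  have : 0 < ‖c κ‖ := norm_pos_iff.2 hκ
  exact mul_pos (by positivity) (hp κ)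

end Pool.Agent.H87.CF
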