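import Pool.Agent.H87.CF.Defs

/-!
ROW GI (110 lines).  Gaussian integrals.  `gs B k s ^ 2 = exp (-(B s + k)² / B) = exp (-B (s + k/B)²)`.
* `gs_int`: translation (`integral_add_right_eq_self`) and `integral_gaussian B`, `integrable_exp_neg_mul_sq`.
* `gs_int2`: `(B s + k)² gs² = B² t² exp(-B t²)`, `t = s + k/B`; `∫ t² exp(-B t²) dt = √(π/B)/(2B)`: integrate by parts, i.e. `(t exp(-B t²))' = exp(-B t²) - 2 B t² exp(-B t²)` and
  `integral_of_hasDerivAt_of_tendsto` with both limits `0` (integrability of `t² exp(-B t²)`: `integrable_rpow_mul_exp_neg_mul_sq` or `t² exp(-Bt²) ≤ (2/B) exp(-B t²/2)`).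
* `gs_tail`: on `1 < |t|`: `exp(-B t²) ≤ exp(-B/2) exp(-B t²/2)`, `∫ exp(-B t²/2) = √(2π/B) ≤ 2 √(π/B)`.
-/

open MeasureTheory Complex Set Filter Topology
open scoped ENNReal NNReal ContDiff ComplexConjugate

noncomputable section

namespace Pool.Agent.H87.CF

theorem GI_sq {B : ℝ} (hB : 0 < B) (k : ℕ) (s : ℝ) :
    (gs B k s) ^ 2 = Real.exp (-B * (s + k / B) ^ 2) := by
  unfold gs
  rw [← Real.exp_nat_mul]
  congr 1
  push_cast
  field_simp

theorem gs_int {B : ℝ} (hB : 0 < B) (k : ℕ) :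
    Integrable (fun s => (gs B k s) ^ 2) ∧ ∫ s, (gs B k s) ^ 2 = GG B := by
  have h1 : (fun s => (gs B k s) ^ 2) = fun s => (fun t => Real.exp (-B * t ^ 2)) (s + k / B) :=
    funext fun s => GI_sq hB k s
  rw [h1]
  constructor
  · exact (integrable_exp_neg_mul_sq hB).comp_add_right (k / B)
  · rw [integral_add_right_eq_self (fun t => Real.exp (-B * t ^ 2)) ((k : ℝ) / B), integral_gaussian]
    rfl

theorem GI_int2 {B : ℝ} (hB : 0 < B) : Integrable (fun t : ℝ => t ^ 2 * Real.exp (-B * t ^ 2)) := by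
  have h := integrable_rpow_mul_exp_neg_mul_sq hB (s := 2) (by norm_num)
  simpa only [Real.rpow_two] using h

theorem GI_val2 {B : ℝ} (hB : 0 < B) :
    2 * B * ∫ t : ℝ, t ^ 2 * Real.exp (-B * t ^ 2) = GG B := by
  have hd : ∀ t : ℝ, HasDerivAt (fun t : ℝ => t * Real.exp (-B * t ^ 2))
      (Real.exp (-B * t ^ 2) - 2 * B * (t ^ 2 * Real.exp (-B * t ^ 2))) t := by
    intro t
    have h1 : HasDerivAt (fun t : ℝ => -B * t ^ 2) (-B * (2 * t)) t := by
      have := (hasDerivAt_pow 2 t).const_mul (-B)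
      simpa using this
    refine ((hasDerivAt_id t).mul h1.exp).congr_deriv ?_
    simp only [id]
    ring
  have hi1 : Integrable (fun t : ℝ => Real.exp (-B * t ^ 2)) := integrable_exp_neg_mul_sq hB
  have hi2 := (GI_int2 hB).const_mul (2 * B)
  have h0 := integral_eq_zero_of_hasDerivAt_of_integrable hd (hi1.sub hi2)
    (integrable_mul_exp_neg_mul_sq hB)
  rw [integral_sub hi1 hi2, integral_const_mul, integral_gaussian] at h0
  unfold GG
  linarith

theorem gs_int2 {B : ℝ} (hB : 0 < B) (k : ℕ) :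
    Integrable (fun s => (B * s + k) ^ 2 * (gs B k s) ^ 2) ∧
      ∫ s, (B * s + k) ^ 2 * (gs B k s) ^ 2 = B / 2 * GG B := by
  have h1 : (fun s => (B * s + k) ^ 2 * (gs B k s) ^ 2) =
      fun s => (fun t => B ^ 2 * (t ^ 2 * Real.exp (-B * t ^ 2))) (s + k / B) := by
    funext s
    rw [GI_sq hB k s]
    have : B * s + k = B * (s + k / B) := by field_simp
    rw [this]
    ring
  rw [h1]
  constructor
  · exact ((GI_int2 hB).const_mul (B ^ 2)).comp_add_right (k / B)
  · rw [integral_add_right_eq_self (fun t => B ^ 2 * (t ^ 2 * Real.exp (-B * t ^ 2))) ((k : ℝ) / B),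
      integral_const_mul, ← GI_val2 hB]
    ring

theorem gs_tail {B : ℝ} (hB : 0 < B) (k : ℕ) :
    ∫ s in {s : ℝ | 1 < |s + k / B|}, (gs B k s) ^ 2 ≤ 2 * Real.exp (-B / 2) * GG B := by
  have hB2 : 0 < B / 2 := by linarith
  have hm : MeasurableSet {s : ℝ | 1 < |s + k / B|} :=
    (isOpen_lt continuous_const (by fun_prop)).measurableSet
  have hi : Integrable (fun s : ℝ => Real.exp (-B / 2) * Real.exp (-(B / 2) * (s + k / B) ^ 2)) :=
    ((integrable_exp_neg_mul_sq hB2).comp_add_right (k / B)).const_mul _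
  have h1 : ∫ s in {s : ℝ | 1 < |s + k / B|}, (gs B k s) ^ 2 ≤
      ∫ s in {s : ℝ | 1 < |s + k / B|},
        Real.exp (-B / 2) * Real.exp (-(B / 2) * (s + k / B) ^ 2) := by
    refine setIntegral_mono_on (gs_int hB k).1.integrableOn hi.integrableOn hm ?_
    intro s hs
    have hs' : 1 < |s + k / B| := hs
    rw [GI_sq hB k s, ← Real.exp_add]
    refine Real.exp_le_exp.2 ?_
    have h2 : 1 < (s + k / B) ^ 2 := by
      rw [← sq_abs]
      nlinarith
    nlinarith
  refine h1.trans ((setIntegral_le_integral hi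
    (Eventually.of_forall fun s => by positivity)).trans ?_)
  rw [integral_const_mul, integral_add_right_eq_self (fun t => Real.exp (-(B / 2) * t ^ 2))
    ((k : ℝ) / B), integral_gaussian]
  have h3 : √(Real.pi / (B / 2)) ≤ 2 * GG B := by
    unfold GG
    have h4 : Real.pi / (B / 2) = 2 * (Real.pi / B) := by field_simp
    rw [h4, Real.sqrt_mul (by norm_num)]
    refine mul_le_mul_of_nonneg_right ?_ (Real.sqrt_nonneg _)
    rw [Real.sqrt_le_left (by norm_num)]
    norm_num
  have h5 : 0 < Real.exp (-B / 2) := Real.exp_pos _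
  nlinarith

end Pool.Agent.H87.CF
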