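import Pool.Agent.H87.CF.PI

/-!
ROW GR (130 lines).  The Gram identity.
Write the summand of `SS` for `κ` as `c κ * ∏ j, (P κ j (x_j) * R κ j (y_j))` with `P κ j = if j = j0 then F' (κ j) else F (κ j)` (cast to `ℂ`), `R κ j` similarly (`split_ifs`).
`(‖SS x‖^2 : ℂ) = SS x * conj (SS x) = ∑ κ, ∑ λ, c κ * conj (c λ) * ∏ j, ((P κ j x_j * P λ j x_j) * (R κ j y_j * conj (R λ j y_j)))` (`Complex.mul_conj'` or `Complex.mul_conj`, `Finset.sum_mul_sum`, `map_sum`, `map_prod`).
Each term is integrable by `int_prod` (products of two `L²` functions are integrable: `MemLp.integrable_mul`; conj of an `L²` function is `L²`: `MemLp.star` or `MemLp.norm`-type lemmas / `LinearIsometry`),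
with integral `c κ * conj (c λ) * ∏ j, ((∫ P κ j * P λ j) * ∫ R κ j * conj (R λ j))`, which vanishes if `κ ≠ λ` (some `κ j ≠ λ j`, `oE` or `oE'`), and for `κ = λ` equals the real number of the statement.
The complex identity `∫ (‖SS‖^2 : ℂ) = ...` is transferred to the real one with `integral_ofReal` and `Complex.ofReal_inj` (integrability: `Integrable.re`, or `integrable_ofReal`).
-/

open MeasureTheory Complex Set Filter Topology
open scoped ENNReal NNReal ContDiff ComplexConjugate

noncomputable section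

namespace Pool.Agent.H87.CF

open Pool.Agent.H2.LTM

theorem GR_memstar {f : ℝ → ℂ} (hf : MemLp f 2 volume) : MemLp (fun y => conj (f y)) 2 volume := by
  refine MemLp.of_le hf (Complex.continuous_conj.comp_aestronglyMeasurable hf.1) ?_
  filter_upwards with y
  simp

theorem GR_mul {f g : ℝ → ℂ} (hf : MemLp f 2 volume) (hg : MemLp g 2 volume) :
    Integrable (fun y => f y * g y) := by
  have h := hf.integrable_mul hg
  exact h

theorem gram {n N : ℕ} (F F' : Fin N → ℝ → ℝ) (E E' : Fin N → ℝ → ℂ) (j0 : Fin n)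
    (c : (Fin n → Fin N) → ℂ) {β β' : ℝ}
    (hF : ∀ k, MemLp (F k) 2 volume) (hF' : ∀ k, MemLp (F' k) 2 volume)
    (hE : ∀ k, MemLp (E k) 2 volume) (hE' : ∀ k, MemLp (E' k) 2 volume)
    (oE : ∀ k l, ∫ y, E k y * conj (E l y) = if k = l then (β : ℂ) else 0)
    (oE' : ∀ k l, ∫ y, E' k y * conj (E' l y) = if k = l then (β' : ℂ) else 0) :
    Integrable (fun x => ‖SS F E F' E' j0 c x‖ ^ 2) ∧
    ∫ x, ‖SS F E F' E' j0 c x‖ ^ 2 = ∑ κ : Fin n → Fin N, ‖c κ‖ ^ 2 *
      ∏ j : Fin n, if j = j0 then β' * ∫ s, (F' (κ j) s) ^ 2 else β * ∫ s, (F (κ j) s) ^ 2 := by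
  classical
  set P : (Fin n → Fin N) → Fin n → ℝ → ℝ := fun κ j => if j = j0 then F' (κ j) else F (κ j) with hP
  set R : (Fin n → Fin N) → Fin n → ℝ → ℂ := fun κ j => if j = j0 then E' (κ j) else E (κ j) with hR
  have hPm : ∀ κ j, MemLp (P κ j) 2 volume := by
    intro κ j
    simp only [hP]
    split_ifs
    · exact hF' _
    · exact hF _
  have hRm : ∀ κ j, MemLp (R κ j) 2 volume := by
    intro κ j
    simp only [hR]
    split_ifs
    · exact hE' _
    · exact hE _
  have hRo : ∀ κ l j, ∫ y, R κ j y * conj (R l j y) =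
      if κ j = l j then (if j = j0 then (β' : ℂ) else (β : ℂ)) else 0 := by
    intro κ l j
    simp only [hR]
    by_cases hj : j = j0
    · simp only [hj, if_true]
      exact oE' _ _
    · simp only [hj, if_false]
      exact oE _ _
  have hSS : ∀ x : Sp (n + n), SS F E F' E' j0 c x = ∑ κ, c κ * ∏ j,
      ((P κ j (x (Fin.castAdd n j)) : ℂ) * R κ j (x (Fin.natAdd n j))) := by
    intro x
    unfold SS
    apply Finset.sum_congr rfl
    intro κ _
    congr 1
    apply Finset.prod_congr rfl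
    intro j _
    simp only [hP, hR]
    split_ifs <;> rfl
  set pp : (Fin n → Fin N) → (Fin n → Fin N) → Fin n → ℝ → ℂ :=
    fun κ l j s => (P κ j s : ℂ) * (P l j s : ℂ) with hpp
  set qq : (Fin n → Fin N) → (Fin n → Fin N) → Fin n → ℝ → ℂ :=
    fun κ l j y => R κ j y * conj (R l j y) with hqq
  have ipp : ∀ κ l j, Integrable (pp κ l j) := fun κ l j =>
    GR_mul (hPm κ j).ofReal (hPm l j).ofReal
  have iqq : ∀ κ l j, Integrable (qq κ l j) := fun κ l j =>
    GR_mul (hRm κ j) (GR_memstar (hRm l j))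
  set G : (Fin n → Fin N) → (Fin n → Fin N) → Sp (n + n) → ℂ := fun κ l x =>
    ∏ j, (pp κ l j (x (Fin.castAdd n j)) * qq κ l j (x (Fin.natAdd n j))) with hG
  have hGi : ∀ κ l, Integrable (G κ l) := fun κ l => (int_prod (pp κ l) (qq κ l) (ipp κ l) (iqq κ l)).1
  have hGv : ∀ κ l, ∫ x, G κ l x = ∏ j, ((∫ s, pp κ l j s) * ∫ y, qq κ l j y) :=
    fun κ l => (int_prod (pp κ l) (qq κ l) (ipp κ l) (iqq κ l)).2
  have hsq : ∀ x : Sp (n + n), ((‖SS F E F' E' j0 c x‖ ^ 2 : ℝ) : ℂ)
      = ∑ κ, ∑ l, (c κ * conj (c l)) * G κ l x := by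
    intro x
    rw [Complex.ofReal_pow, ← Complex.mul_conj', hSS, map_sum, Finset.sum_mul_sum]
    apply Finset.sum_congr rfl
    intro κ _
    apply Finset.sum_congr rfl
    intro l _
    rw [map_mul, map_prod]
    have e1 : ∏ j, conj ((P l j (x (Fin.castAdd n j)) : ℂ) * R l j (x (Fin.natAdd n j)))
        = ∏ j, ((P l j (x (Fin.castAdd n j)) : ℂ) * conj (R l j (x (Fin.natAdd n j)))) := by
      apply Finset.prod_congr rfl
      intro j _
      rw [map_mul, Complex.conj_ofReal]
    rw [e1]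
    have e2 : G κ l x = (∏ j, ((P κ j (x (Fin.castAdd n j)) : ℂ) * R κ j (x (Fin.natAdd n j))))
        * ∏ j, ((P l j (x (Fin.castAdd n j)) : ℂ) * conj (R l j (x (Fin.natAdd n j)))) := by
      rw [← Finset.prod_mul_distrib]
      simp only [hG, hpp, hqq]
      apply Finset.prod_congr rfl
      intro j _
      ring
    rw [e2]
    ring
  have hint : Integrable (fun x : Sp (n + n) => ((‖SS F E F' E' j0 c x‖ ^ 2 : ℝ) : ℂ)) := by
    have h1 : (fun x : Sp (n + n) => ((‖SS F E F' E' j0 c x‖ ^ 2 : ℝ) : ℂ))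
        = fun x => ∑ κ, ∑ l, (c κ * conj (c l)) * G κ l x := by
      funext x
      exact hsq x
    rw [h1]
    exact integrable_finsetSum _ (fun κ _ => integrable_finsetSum _ (fun l _ => (hGi κ l).const_mul _))
  have hre : Integrable (fun x => ‖SS F E F' E' j0 c x‖ ^ 2) := by
    have h2 := hint.re
    refine h2.congr ?_
    filter_upwards with x
    exact Complex.ofReal_re _
  refine ⟨hre, ?_⟩
  apply Complex.ofReal_injective
  have hL : ((∫ x, ‖SS F E F' E' j0 c x‖ ^ 2 : ℝ) : ℂ) = ∫ x, ((‖SS F E F' E' j0 c x‖ ^ 2 : ℝ) : ℂ) :=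
    integral_ofReal.symm
  rw [hL]
  have hI : ∫ x, ((‖SS F E F' E' j0 c x‖ ^ 2 : ℝ) : ℂ)
      = ∑ κ, ∑ l, (c κ * conj (c l)) * ∏ j, ((∫ s, pp κ l j s) * ∫ y, qq κ l j y) := by
    have h1 : (fun x : Sp (n + n) => ((‖SS F E F' E' j0 c x‖ ^ 2 : ℝ) : ℂ))
        = fun x => ∑ κ, ∑ l, (c κ * conj (c l)) * G κ l x := by
      funext x
      exact hsq x
    rw [h1, integral_finsetSum _ (fun κ _ => integrable_finsetSum _ (fun l _ => (hGi κ l).const_mul _))]
    apply Finset.sum_congr rfl
    intro κ _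
    rw [integral_finsetSum _ (fun l _ => (hGi κ l).const_mul _)]
    apply Finset.sum_congr rfl
    intro l _
    rw [integral_const_mul, hGv]
  rw [hI, Complex.ofReal_sum]
  apply Finset.sum_congr rfl
  intro κ _
  rw [Finset.sum_eq_single κ]
  · rw [Complex.ofReal_mul, Complex.ofReal_prod, Complex.mul_conj', ← Complex.ofReal_pow]
    congr 1
    apply Finset.prod_congr rfl
    intro j _
    have e1 : ∫ s, pp κ κ j s = ((∫ s, (P κ j s) ^ 2 : ℝ) : ℂ) := by
      have hh : ((∫ s, (P κ j s) ^ 2 : ℝ) : ℂ) = ∫ s, (((P κ j s) ^ 2 : ℝ) : ℂ) := integral_ofReal.symm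
      rw [hh]
      congr 1
      funext s
      simp only [hpp]
      push_cast
      ring
    have e2 : ∫ y, qq κ κ j y = if j = j0 then (β' : ℂ) else (β : ℂ) := by
      have := hRo κ κ j
      rw [if_pos rfl] at this
      exact this
    rw [e1, e2]
    by_cases hj : j = j0
    · simp only [hP, hj, if_true]
      push_cast
      ring
    · simp only [hP, hj, if_false]
      push_cast
      ring
  · intro l _ hl
    have hex : ∃ j, κ j ≠ l j := by
      by_contra hcon
      push Not at hcon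
      exact hl (funext fun j => (hcon j).symm)
    obtain ⟨j, hj⟩ := hex
    have hz : ∏ j, ((∫ s, pp κ l j s) * ∫ y, qq κ l j y) = 0 := by
      apply Finset.prod_eq_zero (Finset.mem_univ j)
      have := hRo κ l j
      rw [if_neg hj] at this
      have h3 : ∫ y, qq κ l j y = 0 := this
      rw [h3, mul_zero]
    rw [hz, mul_zero]
  · intro h
    exact absurd (Finset.mem_univ _) h

end Pool.Agent.H87.CF
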