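import Pool.Agent.H87.CF.CV
import Pool.Agent.H87.CF.GC

/-!
ROW KN (140 lines).  Kinetic energy: `kin ≤ n ρ mass`.
`F = Fc η B`, `E = Ech χ`, `u = S0 F E c`.  `kin (AA n B) u = ∑_{j0} (∫ ‖cov .. castAdd j0‖² + ∫ ‖cov .. natAdd j0‖²)` (`Fin.sum_univ_add`).  Put `τ = 2 exp(-B/2) < 1` (`B ≥ 2`: `exp(-1) < 1/2`), `β = 2π`.
* `x`: `cov_x`, `gram_le` with `F' = deriv (F k)`, `E' = E`, `β' = β`, `r1 = ((1+ε)(B/2) + (1+1/ε) C0² τ)/(1-τ)` from `oe_p`, `oe_ge`.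
* `y`: `cov_y` with `D k y = χ'(y) ex k y` (`Ech_deriv`), `‖a+b‖² ≤ (1+ε)‖a‖² + (1+1/ε)‖b‖²`; `a`: `gram_le` with `F' = (B s + k) F k`, `E' = I * E k` (same Gram matrix as `E`, `β' = β`), `r2 = (B/2)/(1-τ)` from `oe_q`, `oe_ge`;
  `b`: `D_le` and `gram_le` with `F' = F`, `E' = Ww`, `β' = 4π`, `r = 2`.  (Integrate the pointwise inequality with `integral_mono_of_nonneg`, integrability from `gram_le`.)
All the functions are continuous with compact support, hence in `L²` (`Continuous.memLp_of_hasCompactSupport`; `HasCompactSupport.deriv`).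
-/

open MeasureTheory Complex Set Filter Topology
open scoped ENNReal NNReal ContDiff ComplexConjugate

noncomputable section

namespace Pool.Agent.H87.CF

open Pool.Agent.H2.LTM

theorem KN_tau {B : ℝ} (hB : 2 ≤ B) : 2 * Real.exp (-B / 2) < 1 := by
  have h2 : Real.exp (-B / 2) ≤ Real.exp (-1) := Real.exp_le_exp.2 (by linarith)
  have h3 : Real.exp (-1) < 1 / 2 := by
    rw [Real.exp_neg, one_div]
    exact inv_strictAnti₀ (by norm_num) (lt_trans (by norm_num) Real.exp_one_gt_d9)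
  linarith

theorem KN_GG {B : ℝ} (hB : 0 < B) : 0 < GG B := by
  unfold GG
  have := Real.pi_pos
  positivity

theorem KN_memF {f : ℝ → ℝ} (hf : Continuous f) (hs : HasCompactSupport f) : MemLp f 2 volume :=
  hf.memLp_of_hasCompactSupport hs

theorem KN_ratio {a A G I τ : ℝ} (hτ : τ < 1) (hA : 0 ≤ A) (h1 : a ≤ A * G)
    (h2 : (1 - τ) * G ≤ I) : 2 * Real.pi * a ≤ A / (1 - τ) * (2 * Real.pi * I) := by
  have hp := Real.pi_pos
  have hd : 0 < 1 - τ := by linarith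
  have h3 : a ≤ A / (1 - τ) * I := by
    have h4 : A / (1 - τ) * ((1 - τ) * G) ≤ A / (1 - τ) * I :=
      mul_le_mul_of_nonneg_left h2 (by positivity)
    have h5 : A / (1 - τ) * ((1 - τ) * G) = A * G := by
      field_simp
    linarith
  have h6 := mul_le_mul_of_nonneg_left h3 (by positivity : (0 : ℝ) ≤ 2 * Real.pi)
  calc 2 * Real.pi * a ≤ 2 * Real.pi * (A / (1 - τ) * I) := h6
    _ = A / (1 - τ) * (2 * Real.pi * I) := by ring

theorem KN_young (a b : ℂ) {ε : ℝ} (hε : 0 < ε) :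
    ‖a + b‖ ^ 2 ≤ (1 + ε) * ‖a‖ ^ 2 + (1 + 1 / ε) * ‖b‖ ^ 2 := by
  have h1 : ‖a + b‖ ^ 2 ≤ (‖a‖ + ‖b‖) ^ 2 := pow_le_pow_left₀ (norm_nonneg _) (norm_add_le a b) 2
  have h2 : 0 ≤ (ε * ‖a‖ - ‖b‖) ^ 2 / ε := by positivity
  have h3 : (ε * ‖a‖ - ‖b‖) ^ 2 / ε = ε * ‖a‖ ^ 2 - 2 * ‖a‖ * ‖b‖ + 1 / ε * ‖b‖ ^ 2 := by
    field_simp
    ring
  nlinarith

theorem KN_mass_nonneg {d : ℕ} (u : Sp d → ℂ) : 0 ≤ mass u :=
  integral_nonneg fun x => by positivity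

theorem KN_x {n N : ℕ} {C0 C1 B ε δ : ℝ} {η χ : ℝ → ℝ} (hη : Eta C0 (-(N / B) - 1) 1 η)
    (hχ : Chi C1 δ χ) (hB : 2 ≤ B) (hε : 0 < ε) (c : (Fin n → Fin N) → ℂ)
    (j0 : Fin n) :
    ∫ x, ‖cov (AA n B) (S0 (Fc η B) (Ech χ) c) (Fin.castAdd n j0) x‖ ^ 2 ≤
      ((1 + ε) * (B / 2) + (1 + 1 / ε) * (C0 ^ 2 * (2 * Real.exp (-B / 2)))) /
      (1 - 2 * Real.exp (-B / 2)) * mass (S0 (Fc η B) (Ech χ) c) := by
  have hB0 : 0 < B := by linarith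
  have hF : ∀ k : Fin N, ContDiff ℝ ∞ (Fc η B k) := fun k => Fc_smooth hη k
  have hE : ∀ k : Fin N, ContDiff ℝ ∞ (Ech χ k) := fun k => Ech_smooth hχ k
  have e1 : (fun x => ‖cov (AA n B) (S0 (Fc η B) (Ech χ) c) (Fin.castAdd n j0) x‖ ^ 2) =
      fun x => ‖SS (Fc η B) (Ech χ) (fun k s => deriv (Fc η B k) s) (Ech χ) j0 c x‖ ^ 2 := by
    funext x
    rw [cov_x B hF hE c j0 x]
  rw [e1]
  have hA : 0 ≤ (1 + ε) * (B / 2) + (1 + 1 / ε) * (C0 ^ 2 * (2 * Real.exp (-B / 2))) := by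
    have := Real.exp_pos (-B / 2)
    positivity
  exact (gram_le (Fc η B) (fun k s => deriv (Fc η B k) s) (Ech χ) (Ech χ) j0 c
    (β := 2 * Real.pi) (β' := 2 * Real.pi)
    (fun k => KN_memF (hF k).continuous (Fc_supp hη k))
    (fun k => KN_memF ((hF k).continuous_deriv (by simp)) (Fc_supp hη k).deriv)
    (fun k => Ech_mem hχ k) (fun k => Ech_mem hχ k)
    (fun k l => Ech_orth hχ k l) (fun k l => Ech_orth hχ k l)
    (by have := Real.pi_pos; positivity)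
    (fun k => KN_ratio (KN_tau hB) hA (oe_p hη hB0 hε k) (oe_ge hη hB0 k))).2

theorem KN_a {n N : ℕ} {C0 C1 B δ : ℝ} {η χ : ℝ → ℝ} (hη : Eta C0 (-(N / B) - 1) 1 η)
    (hχ : Chi C1 δ χ) (hB : 2 ≤ B) (c : (Fin n → Fin N) → ℂ) (j0 : Fin n) :
    Integrable (fun x => ‖SS (Fc η B) (Ech χ) (fun k s => (B * s + (k : ℕ)) * Fc η B k s)
      (fun k y => I * Ech χ k y) j0 c x‖ ^ 2) ∧
    ∫ x, ‖SS (Fc η B) (Ech χ) (fun k s => (B * s + (k : ℕ)) * Fc η B k s)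
      (fun k y => I * Ech χ k y) j0 c x‖ ^ 2 ≤
      (B / 2) / (1 - 2 * Real.exp (-B / 2)) * mass (S0 (Fc η B) (Ech χ) c) := by
  have hB0 : 0 < B := by linarith
  have hF : ∀ k : Fin N, ContDiff ℝ ∞ (Fc η B k) := fun k => Fc_smooth hη k
  refine gram_le (Fc η B) (fun k s => (B * s + (k : ℕ)) * Fc η B k s) (Ech χ)
    (fun k y => I * Ech χ k y) j0 c (β := 2 * Real.pi) (β' := 2 * Real.pi)
    (fun k => KN_memF (hF k).continuous (Fc_supp hη k))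
    (fun k => KN_memF ?_ ?_)
    (fun k => Ech_mem hχ k) (fun k => (Ech_mem hχ k).const_mul I)
    (fun k l => Ech_orth hχ k l) (fun k l => ?_)
    (by have := Real.pi_pos; positivity)
    (fun k => KN_ratio (KN_tau hB) (by positivity) (oe_q hη hB0 k) (oe_ge hη hB0 k))
  · have h1 := (hF k).continuous
    fun_prop
  · exact (Fc_supp hη k).mul_left
  · rw [← Ech_orth hχ k l]
    refine integral_congr_ae (Eventually.of_forall fun y => ?_)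
    show I * Ech χ k y * conj (I * Ech χ l y) = Ech χ k y * conj (Ech χ l y)
    rw [map_mul, conj_I]
    linear_combination (-(Ech χ k y * conj (Ech χ l y))) * I_mul_I

theorem KN_b {n N : ℕ} {C0 C1 B δ : ℝ} {η χ : ℝ → ℝ} (hη : Eta C0 (-(N / B) - 1) 1 η)
    (hχ : Chi C1 δ χ) (c : (Fin n → Fin N) → ℂ) (j0 : Fin n) :
    Integrable (fun x => ‖SS (Fc η B) (Ech χ) (Fc η B) Ww j0 c x‖ ^ 2) ∧
    ∫ x, ‖SS (Fc η B) (Ech χ) (Fc η B) Ww j0 c x‖ ^ 2 ≤ 2 * mass (S0 (Fc η B) (Ech χ) c) := by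
  have hF : ∀ k : Fin N, ContDiff ℝ ∞ (Fc η B k) := fun k => Fc_smooth hη k
  exact gram_le (Fc η B) (Fc η B) (Ech χ) Ww j0 c (β := 2 * Real.pi) (β' := 4 * Real.pi)
    (fun k => KN_memF (hF k).continuous (Fc_supp hη k))
    (fun k => KN_memF (hF k).continuous (Fc_supp hη k))
    (fun k => Ech_mem hχ k) (fun k => Ww_mem k)
    (fun k l => Ech_orth hχ k l) (fun k l => Ww_orth k l)
    (by have := Real.pi_pos; positivity)
    (fun k => le_of_eq (by ring))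

theorem KN_y {n N : ℕ} {C0 C1 B ε δ : ℝ} {η χ : ℝ → ℝ} (hη : Eta C0 (-(N / B) - 1) 1 η)
    (hχ : Chi C1 δ χ) (hδ : δ < 1) (hB : 2 ≤ B) (hε : 0 < ε) (c : (Fin n → Fin N) → ℂ)
    (j0 : Fin n) :
    ∫ x, ‖cov (AA n B) (S0 (Fc η B) (Ech χ) c) (Fin.natAdd n j0) x‖ ^ 2 ≤
      ((1 + ε) * ((B / 2) / (1 - 2 * Real.exp (-B / 2))) + (1 + 1 / ε) * (C1 ^ 2 * 2)) *
        mass (S0 (Fc η B) (Ech χ) c) := by
  have hF : ∀ k : Fin N, ContDiff ℝ ∞ (Fc η B k) := fun k => Fc_smooth hη k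
  have hE : ∀ k : Fin N, ContDiff ℝ ∞ (Ech χ k) := fun k => Ech_smooth hχ k
  obtain ⟨ia, ha⟩ := KN_a hη hχ hB c j0
  obtain ⟨ib, hb⟩ := KN_b (B := B) hη hχ c j0
  have hpt : ∀ x, ‖cov (AA n B) (S0 (Fc η B) (Ech χ) c) (Fin.natAdd n j0) x‖ ^ 2 ≤
      (1 + ε) * ‖SS (Fc η B) (Ech χ) (fun k s => (B * s + (k : ℕ)) * Fc η B k s)
      (fun k y => I * Ech χ k y) j0 c x‖ ^ 2 +
      (1 + 1 / ε) * C1 ^ 2 * ‖SS (Fc η B) (Ech χ) (Fc η B) Ww j0 c x‖ ^ 2 := by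
    intro x
    rw [cov_y B hF hE (D := fun k y => ((deriv χ y : ℝ) : ℂ) * ex k y)
      (fun k y => Ech_deriv hχ k y) c j0 x]
    refine (KN_young _ _ hε).trans ?_
    have h1 := D_le hδ hχ (Fc η B) (Ech χ) j0 c x
    have h2 : 0 ≤ 1 + 1 / ε := by positivity
    have h3 := mul_le_mul_of_nonneg_left h1 h2
    linarith
  have hi := (ia.const_mul (1 + ε)).add (ib.const_mul ((1 + 1 / ε) * C1 ^ 2))
  have hm := integral_mono_of_nonneg (Eventually.of_forall fun x => by positivity) hi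
    (Eventually.of_forall hpt)
  refine hm.trans ?_
  simp only [Pi.add_apply]
  rw [integral_add (ia.const_mul _) (ib.const_mul _), integral_const_mul, integral_const_mul]
  have h1 := mul_le_mul_of_nonneg_left ha (by positivity : 0 ≤ 1 + ε)
  have h2 := mul_le_mul_of_nonneg_left hb (by positivity : 0 ≤ (1 + 1 / ε) * C1 ^ 2)
  linarith

theorem kin_S0_le {n N : ℕ} {C0 C1 B ε δ : ℝ} {η χ : ℝ → ℝ} (hη : Eta C0 (-(N / B) - 1) 1 η)
    (hχ : Chi C1 δ χ) (hδ : δ < 1) (hB : 2 ≤ B) (hε : 0 < ε) (c : (Fin n → Fin N) → ℂ) :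
    kin (AA n B) (S0 (Fc η B) (Ech χ) c) ≤ n * rho C0 C1 ε B * mass (S0 (Fc η B) (Ech χ) c) := by
  have hx := fun j0 : Fin n => KN_x hη hχ hB hε c j0
  have hy := fun j0 : Fin n => KN_y hη hχ hδ hB hε c j0
  unfold kin
  rw [Fin.sum_univ_add, ← Finset.sum_add_distrib]
  have h : ∀ j0 ∈ (Finset.univ : Finset (Fin n)),
      (∫ x, ‖cov (AA n B) (S0 (Fc η B) (Ech χ) c) (Fin.castAdd n j0) x‖ ^ 2) +
      (∫ x, ‖cov (AA n B) (S0 (Fc η B) (Ech χ) c) (Fin.natAdd n j0) x‖ ^ 2) ≤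
      rho C0 C1 ε B * mass (S0 (Fc η B) (Ech χ) c) := by
    intro j0 _
    have h1 := hx j0
    have h2 := hy j0
    unfold rho
    linarith
  refine (Finset.sum_le_sum h).trans (le_of_eq ?_)
  rw [Finset.sum_const, Finset.card_univ, Fintype.card_fin, nsmul_eq_mul]
  ring

end Pool.Agent.H87.CF
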