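import Pool.Agent.H87.CF.Defs

/-!
ROW LM (170 lines).  The limit (real analysis).  Write `ρ = rho C0 (C1 δ) ε B > 0`.
Step 1 (`N → ∞`, `ε, δ, B, μ` fixed): `N^n / ((N/B+4)^n) = (N/(N/B+4))^n → B^n`, so `(μ - nρ)^γ B^n ≤ k μ^(γ+n) (2π+2δ)^n` for all `μ > nρ`.
Step 2: for `θ > 0` take `μ = (n+γ+θ) ρ > nρ`: `(γ+θ)^γ ρ^γ B^n ≤ k (n+γ+θ)^(γ+n) ρ^(γ+n) (2π+2δ)^n`; `ρ^(γ+n) = ρ^γ ρ^n` (`Real.rpow_add_natCast` or `Real.rpow_add`), so
`(γ+θ)^γ (B/ρ)^n ≤ k (n+γ+θ)^(γ+n) (2π+2δ)^n`.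
Step 3 (`B → ∞`): `rho C0 C1 ε B / B → (1+ε)/2 + (1+ε)/2 = 1 + ε` (`exp(-B/2) → 0`, `const/B → 0`), so `(γ+θ)^γ (1/(1+ε))^n ≤ k (n+γ+θ)^(γ+n) (2π+2δ)^n`.
Step 4: `ε = δ = θ = 1/(m+2)`, `m → ∞` (all expressions are continuous; `γ = 0`: `(0+θ)^0 = 1`; `(γ+θ)^γ → γ^γ` by `Real.continuousAt_rpow_const` with `γ > 0` or `γ = 0` separately; `n + γ > 0`):
`γ^γ ≤ k (n+γ)^(γ+n) (2π)^n`.
Limits: `le_of_tendsto_of_tendsto'` / `le_of_tendsto_of_tendsto` with `eventually_gt_atTop`.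
-/

open MeasureTheory Complex Set Filter Topology
open scoped ENNReal NNReal ContDiff ComplexConjugate

noncomputable section

namespace Pool.Agent.H87.CF

private theorem LM_den {B : ℝ} (hB : 2 ≤ B) : 0 < 1 - 2 * Real.exp (-B / 2) := by
  have h1 : Real.exp (-B / 2) ≤ Real.exp (-1) := Real.exp_le_exp.2 (by linarith)
  have h2 : Real.exp (-1) < 0.3678794412 := Real.exp_neg_one_lt_d9
  linarith

private theorem LM_rho_pos {C0 C1 ε B : ℝ} (hε : 0 < ε) (hB : 2 ≤ B) : 0 < rho C0 C1 ε B := by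
  have hd := LM_den hB
  have hB0 : 0 < B := by linarith
  unfold rho
  have h1 : 0 ≤ ((1 + ε) * (B / 2) + (1 + 1 / ε) * (C0 ^ 2 * (2 * Real.exp (-B / 2)))) /
      (1 - 2 * Real.exp (-B / 2)) := by positivity
  have h2 : 0 < (1 + ε) * ((B / 2) / (1 - 2 * Real.exp (-B / 2))) := by positivity
  have h3 : 0 ≤ (1 + 1 / ε) * (C1 ^ 2 * 2) := by positivity
  linarith

private theorem LM_step1 {n : ℕ} {γ k : ℝ} {ρ B μ δ : ℝ} (hB : 2 ≤ B)
    (h : ∀ N : ℕ, 1 ≤ N → (μ - n * ρ) ^ γ * (N : ℝ) ^ n ≤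
      k * (μ ^ (γ + n) * ((N / B + 4) * (2 * Real.pi + 2 * δ)) ^ n)) :
    (μ - n * ρ) ^ γ * B ^ n ≤ k * (μ ^ (γ + n) * (2 * Real.pi + 2 * δ) ^ n) := by
  have hB0 : 0 < B := by linarith
  have hlim : Tendsto (fun N : ℕ => (N : ℝ) / (N / B + 4)) atTop (𝓝 B) := by
    have h1 : Tendsto (fun N : ℕ => B - 4 * B ^ 2 / ((N : ℝ) + 4 * B)) atTop (𝓝 (B - 0)) := by
      apply Tendsto.sub tendsto_const_nhds
      apply Tendsto.div_atTop tendsto_const_nhds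
      exact tendsto_atTop_add_const_right _ _ tendsto_natCast_atTop_atTop
    rw [sub_zero] at h1
    refine h1.congr fun N => ?_
    have : (0 : ℝ) < (N : ℝ) + 4 * B := by positivity
    have h2 : (0 : ℝ) < (N : ℝ) / B + 4 := by positivity
    field_simp
    ring
  have hl2 : Tendsto (fun N : ℕ => (μ - n * ρ) ^ γ * ((N : ℝ) / (N / B + 4)) ^ n) atTop
      (𝓝 ((μ - n * ρ) ^ γ * B ^ n)) := (hlim.pow n).const_mul _
  refine le_of_tendsto hl2 ?_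
  filter_upwards [eventually_ge_atTop 1] with N hN
  have h3 := h N hN
  have h4 : (0 : ℝ) < (N : ℝ) / B + 4 := by positivity
  have h5 : (0 : ℝ) < ((N : ℝ) / B + 4) ^ n := by positivity
  rw [div_pow, ← mul_div_assoc, div_le_iff₀ h5]
  rw [mul_pow] at h3
  linarith

private theorem LM_step2 {n : ℕ} {γ k : ℝ} {ρ B δ θ : ℝ} (hγ : 0 ≤ γ) (hρ : 0 < ρ) (hθ : 0 < θ)
    (h : (((n : ℝ) + γ + θ) * ρ - n * ρ) ^ γ * B ^ n ≤
      k * ((((n : ℝ) + γ + θ) * ρ) ^ (γ + n) * (2 * Real.pi + 2 * δ) ^ n)) :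
    (γ + θ) ^ γ * (B / ρ) ^ n ≤ k * (((n : ℝ) + γ + θ) ^ (γ + n) * (2 * Real.pi + 2 * δ) ^ n) := by
  have e1 : ((n : ℝ) + γ + θ) * ρ - n * ρ = (γ + θ) * ρ := by ring
  rw [e1, Real.mul_rpow (by positivity) hρ.le, Real.mul_rpow (by positivity) hρ.le,
    Real.rpow_add hρ, Real.rpow_natCast] at h
  have h2 : (0 : ℝ) < ρ ^ γ * ρ ^ n := by positivity
  rw [div_pow, ← mul_div_assoc, div_le_iff₀ (by positivity)]
  have h3 : (γ + θ) ^ γ * B ^ n * ρ ^ γ ≤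
      (k * (((n : ℝ) + γ + θ) ^ (γ + n) * (2 * Real.pi + 2 * δ) ^ n) * ρ ^ n) * ρ ^ γ := by
    linarith
  exact le_of_mul_le_mul_right h3 (by positivity)

private theorem LM_lim_rho (C0 C1 : ℝ) {ε : ℝ} (hε : 0 < ε) :
    Tendsto (fun B : ℝ => B / rho C0 C1 ε B) atTop (𝓝 (1 / (1 + ε))) := by
  have he : Tendsto (fun B : ℝ => Real.exp (-B / 2)) atTop (𝓝 0) := by
    apply Real.tendsto_exp_atBot.comp
    have : (fun B : ℝ => -B / 2) = fun B : ℝ => -(B / 2) := by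
      funext B
      ring
    rw [this]
    exact tendsto_neg_atTop_atBot.comp (tendsto_id.atTop_div_const (by norm_num))
  have hi : Tendsto (fun B : ℝ => B⁻¹) atTop (𝓝 0) := tendsto_inv_atTop_zero
  have hd : Tendsto (fun B : ℝ => 1 - 2 * Real.exp (-B / 2)) atTop (𝓝 (1 - 2 * 0)) :=
    tendsto_const_nhds.sub (he.const_mul 2)
  have hr : Tendsto (fun B : ℝ => ((1 + ε) / 2 + (1 + 1 / ε) * (C0 ^ 2 * (2 * Real.exp (-B / 2))) *
      B⁻¹) / (1 - 2 * Real.exp (-B / 2)) + (1 + ε) * ((1 / 2) / (1 - 2 * Real.exp (-B / 2))) +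
      (1 + 1 / ε) * (C1 ^ 2 * 2) * B⁻¹) atTop
      (𝓝 (((1 + ε) / 2 + (1 + 1 / ε) * (C0 ^ 2 * (2 * 0)) * 0) / (1 - 2 * 0) +
        (1 + ε) * ((1 / 2) / (1 - 2 * 0)) + (1 + 1 / ε) * (C1 ^ 2 * 2) * 0)) := by
    apply Tendsto.add
    · apply Tendsto.add
      · apply Tendsto.div _ hd (by norm_num)
        exact tendsto_const_nhds.add ((((he.const_mul 2).const_mul _).const_mul _).mul hi)
      · exact (tendsto_const_nhds.div hd (by norm_num)).const_mul _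
    · exact hi.const_mul _
  have hv : ((1 + ε) / 2 + (1 + 1 / ε) * (C0 ^ 2 * (2 * 0)) * 0) / (1 - 2 * 0) +
        (1 + ε) * ((1 / 2) / (1 - 2 * 0)) + (1 + 1 / ε) * (C1 ^ 2 * 2) * 0 = 1 + ε := by ring
  rw [hv] at hr
  have h3 := hr.inv₀ (by positivity)
  rw [← one_div] at h3
  refine h3.congr' ?_
  filter_upwards [eventually_ge_atTop 2] with B hB
  have hB0 : 0 < B := by linarith
  have hd' := LM_den hB
  have hρ := LM_rho_pos (C0 := C0) (C1 := C1) hε hB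
  have e : rho C0 C1 ε B = B * (((1 + ε) / 2 + (1 + 1 / ε) * (C0 ^ 2 * (2 * Real.exp (-B / 2))) *
      B⁻¹) / (1 - 2 * Real.exp (-B / 2)) + (1 + ε) * ((1 / 2) / (1 - 2 * Real.exp (-B / 2))) +
      (1 + 1 / ε) * (C1 ^ 2 * 2) * B⁻¹) := by
    unfold rho
    field_simp
  rw [e, div_mul_eq_div_div, div_self hB0.ne']
  exact (one_div _).symm

theorem lim_main {n : ℕ} (hn : 1 ≤ n) {γ k C0 : ℝ} (hγ : 0 ≤ γ) (hk : 0 ≤ k) (C1 : ℝ → ℝ)
    (h : ∀ (ε δ B μ : ℝ) (N : ℕ), 0 < ε → ε < 1 → 0 < δ → δ < 1 → 2 ≤ B → 1 ≤ N →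
      n * rho C0 (C1 δ) ε B < μ →
      (μ - n * rho C0 (C1 δ) ε B) ^ γ * (N : ℝ) ^ n ≤
        k * (μ ^ (γ + n) * ((N / B + 4) * (2 * Real.pi + 2 * δ)) ^ n)) :
    γ ^ γ / ((2 * Real.pi) ^ n * (γ + n) ^ (γ + n)) ≤ k := by
  have hn' : (0 : ℝ) < n := by exact_mod_cast hn
  have s3 : ∀ t : ℝ, 0 < t → t < 1 → (γ + t) ^ γ * (1 / (1 + t)) ^ n ≤
      k * (((n : ℝ) + γ + t) ^ (γ + n) * (2 * Real.pi + 2 * t) ^ n) := by
    intro t ht ht1
    have hl := LM_lim_rho C0 (C1 t) ht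
    have hl2 : Tendsto (fun B : ℝ => (γ + t) ^ γ * (B / rho C0 (C1 t) t B) ^ n) atTop
      (𝓝 ((γ + t) ^ γ * (1 / (1 + t)) ^ n)) := (hl.pow n).const_mul _
    refine le_of_tendsto hl2 ?_
    filter_upwards [eventually_ge_atTop 2] with B hB
    have hρ := LM_rho_pos (C0 := C0) (C1 := C1 t) ht hB
    apply LM_step2 hγ hρ ht
    apply LM_step1 hB
    intro N hN
    apply h t t B _ N ht ht1 ht ht1 hB hN
    have : (n : ℝ) * rho C0 (C1 t) t B < ((n : ℝ) + γ + t) * rho C0 (C1 t) t B :=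
      mul_lt_mul_of_pos_right (by linarith) hρ
    exact this
  have l1 : Tendsto (fun t : ℝ => (γ + t) ^ γ * (1 / (1 + t)) ^ n) (𝓝[>] 0)
      (𝓝 ((γ + 0) ^ γ * (1 / (1 + 0)) ^ n)) := by
    apply Tendsto.mono_left _ nhdsWithin_le_nhds
    apply Tendsto.mul
    · exact ((Real.continuous_rpow_const hγ).comp (continuous_const.add continuous_id)).tendsto 0
    · apply Tendsto.pow
      apply Tendsto.div tendsto_const_nhds _ (by norm_num)
      exact (continuous_const.add continuous_id).tendsto 0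
  have l2 : Tendsto (fun t : ℝ => k * (((n : ℝ) + γ + t) ^ (γ + n) * (2 * Real.pi + 2 * t) ^ n))
      (𝓝[>] 0) (𝓝 (k * (((n : ℝ) + γ + 0) ^ (γ + n) * (2 * Real.pi + 2 * 0) ^ n))) := by
    apply Tendsto.mono_left _ nhdsWithin_le_nhds
    apply Tendsto.const_mul
    apply Tendsto.mul
    · exact ((Real.continuous_rpow_const (by positivity)).comp
        (continuous_const.add continuous_id)).tendsto 0
    · apply Tendsto.pow
      exact (continuous_const.add (continuous_const.mul continuous_id)).tendsto 0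
  have h5 := le_of_tendsto_of_tendsto l1 l2 (by
    filter_upwards [Ioo_mem_nhdsGT (show (0 : ℝ) < 1 by norm_num)] with t ht
    exact s3 t ht.1 ht.2)
  have h6 : γ ^ γ ≤ k * (((n : ℝ) + γ) ^ (γ + n) * (2 * Real.pi) ^ n) := by
    simpa using h5
  have h7 : (0 : ℝ) < (2 * Real.pi) ^ n * (γ + n) ^ (γ + n) := by positivity
  rw [div_le_iff₀ h7]
  rw [add_comm (n : ℝ) γ] at h6
  linarith

end Pool.Agent.H87.CF
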