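import Pool.Agent.H87.CF.Defs

/-!
ROW RZ (50 lines).  Lower bound for the Riesz sum.
`riesz γ A V ≥ ∫_{E in Ioo 0 e0} ofReal (γ E^(γ-1)) * M = ofReal (e0^γ) * M` (`setLIntegral_mono`/`lintegral_mono_set`, `lintegral_mul_const`, `∫_0^{e0} γ E^(γ-1) dE = e0^γ`: `intervalIntegral` `integral_rpow`, `ofReal_integral_eq_lintegral_ofReal`;
compare `Pool/Agent/H87/LTI/PO.lean`, where the same is done).
-/

open MeasureTheory Complex Set Filter Topology
open scoped ENNReal NNReal ContDiff ComplexConjugate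

noncomputable section

namespace Pool.Agent.H87.CF

open Pool.Agent.H2.LTM

theorem riesz_ge {d : ℕ} {γ e0 : ℝ} (hγ : 0 < γ) (he : 0 < e0) (A : Sp d → Sp d) (V : Sp d → ℝ)
    (M : ℕ) (h : ∀ e, 0 < e → e < e0 → (M : ℕ∞) ≤ levels A V e) :
    ENNReal.ofReal (e0 ^ γ) * M ≤ riesz γ A V := by
  have hint : ∫⁻ E in Ioo (0 : ℝ) e0, ENNReal.ofReal (γ * E ^ (γ - 1)) =
      ENNReal.ofReal (e0 ^ γ) := by
    have h1 : IntervalIntegrable (fun E : ℝ => γ * E ^ (γ - 1)) volume 0 e0 :=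
      (intervalIntegral.intervalIntegrable_rpow' (by linarith)).const_mul γ
    have h2 : ∫ E in (0 : ℝ)..e0, γ * E ^ (γ - 1) = e0 ^ γ := by
      rw [intervalIntegral.integral_const_mul, integral_rpow (Or.inl (by linarith)),
        sub_add_cancel, Real.zero_rpow hγ.ne', sub_zero]
      field_simp
    rw [← h2, intervalIntegral.integral_of_le he.le, restrict_Ioo_eq_restrict_Ioc,
      ofReal_integral_eq_lintegral_ofReal]
    · exact h1.1
    · filter_upwards [ae_restrict_mem measurableSet_Ioc] with E hE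
      exact mul_nonneg hγ.le (Real.rpow_nonneg hE.1.le _)
  calc ENNReal.ofReal (e0 ^ γ) * M
      = ∫⁻ E in Ioo (0 : ℝ) e0, ENNReal.ofReal (γ * E ^ (γ - 1)) * M := by
        rw [lintegral_mul_const _ (by fun_prop), hint]
    _ ≤ ∫⁻ E in Ioo (0 : ℝ) e0,
          ENNReal.ofReal (γ * E ^ (γ - 1)) * ((levels A V E : ℕ∞) : ℝ≥0∞) := by
        refine setLIntegral_mono' measurableSet_Ioo fun E hE => ?_
        have h3 : (M : ℝ≥0∞) ≤ ((levels A V E : ℕ∞) : ℝ≥0∞) := by
          have h4 := ENat.toENNReal_le.2 (h E hE.1 hE.2)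
          simpa using h4
        gcongr
    _ ≤ riesz γ A V := lintegral_mono_set (fun E hE => hE.1)

end Pool.Agent.H87.CF
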