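import Pool.Agent.H87.CF.Defs

/-!
ROW VO (110 lines).  The vector potential and the potential are admissible.
`AA_meas`: continuous (each component is a coordinate times `B`, or `0`: `continuous_pi`, `Fin.addCases`).  `AA_loc`: continuous functions are locally integrable.
`bx n N B δ = Set.pi univ (fun i => Icc (lo i) (hi i))` with `lo = Fin.addCases (fun _ => -(N/B) - 2) (fun _ => -δ)`, `hi = Fin.addCases (fun _ => 2) (fun _ => 2π+δ)` (`Fin.addCases` on the index), so it is measurable and its volume is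
`∏ i, ofReal (hi i - lo i)` (`volume_pi`, `Measure.pi_pi`, `Real.volume_Icc`), `Fin.prod_univ_add`.
`VV_int`: `ofReal (VV x ^ p) = indicator (ofReal (μ^p))` (`0^p = 0` for `p > 0`).
-/

open MeasureTheory Complex Set Filter Topology
open scoped ENNReal NNReal ContDiff ComplexConjugate

noncomputable section

namespace Pool.Agent.H87.CF

open Pool.Agent.H2.LTM

theorem VO_cont (n : ℕ) (B : ℝ) : Continuous (AA n B) := by
  refine continuous_pi fun i => ?_
  refine Fin.addCases (fun j => ?_) (fun j => ?_) i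
  · have e : (fun x : Sp (n + n) => AA n B x (Fin.castAdd n j)) = fun _ => 0 := by
      funext x
      simp [AA]
    rw [e]
    exact continuous_const
  · have e : (fun x : Sp (n + n) => AA n B x (Fin.natAdd n j)) =
        fun x => B * x (Fin.castAdd n j) := by
      funext x
      simp only [AA, Fin.addCases_right]
    rw [e]
    exact continuous_const.mul (continuous_apply _)

theorem AA_meas (n : ℕ) (B : ℝ) : Measurable (AA n B) := (VO_cont n B).measurable

theorem AA_loc (n : ℕ) (B : ℝ) (i : Fin (n + n)) : LocallyIntegrable (fun x => AA n B x i ^ 2) :=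
  (((continuous_apply i).comp (VO_cont n B)).pow 2).locallyIntegrable

/-- lower ends -/
def VO_lo (n N : ℕ) (B δ : ℝ) : Fin (n + n) → ℝ :=
  Fin.addCases (fun _ => -(N / B) - 2) (fun _ => -δ)

/-- upper ends -/
def VO_hi (n : ℕ) (δ : ℝ) : Fin (n + n) → ℝ :=
  Fin.addCases (fun _ => 2) (fun _ => 2 * Real.pi + δ)

theorem VO_bx (n N : ℕ) (B δ : ℝ) :
    bx n N B δ = Set.pi univ (fun i => Icc (VO_lo n N B δ i) (VO_hi n δ i)) := by
  ext x
  simp only [bx, mem_ofPred_eq, Set.mem_pi, mem_univ, true_imp_iff]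
  constructor
  · intro h i
    refine Fin.addCases (fun j => ?_) (fun j => ?_) i
    · simpa only [VO_lo, VO_hi, Fin.addCases_left] using (h j).1
    · simpa only [VO_lo, VO_hi, Fin.addCases_right] using (h j).2
  · intro h j
    refine ⟨?_, ?_⟩
    · simpa only [VO_lo, VO_hi, Fin.addCases_left] using h (Fin.castAdd n j)
    · simpa only [VO_lo, VO_hi, Fin.addCases_right] using h (Fin.natAdd n j)

theorem VO_bxm (n N : ℕ) (B δ : ℝ) : MeasurableSet (bx n N B δ) := by
  rw [VO_bx]
  exact MeasurableSet.univ_pi fun i => measurableSet_Icc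

theorem VO_vol {n N : ℕ} {B δ : ℝ} (hB : 0 < B) (hδ : 0 < δ) :
    volume (bx n N B δ) = ENNReal.ofReal (((N / B + 4) * (2 * Real.pi + 2 * δ)) ^ n) := by
  have h1 : (0 : ℝ) ≤ N / B + 4 := by positivity
  have h2 : (0 : ℝ) ≤ 2 * Real.pi + 2 * δ := by positivity
  have e : volume (bx n N B δ) =
      ∏ i : Fin (n + n), ENNReal.ofReal (VO_hi n δ i - VO_lo n N B δ i) := by
    rw [VO_bx, volume_pi, Measure.pi_pi]
    refine Finset.prod_congr rfl fun i _ => ?_
    rw [Real.volume_Icc]
  rw [e, Fin.prod_univ_add]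
  have e1 : ∀ j : Fin n, ENNReal.ofReal (VO_hi n δ (Fin.castAdd n j) - VO_lo n N B δ (Fin.castAdd n j)) =
      ENNReal.ofReal (N / B + 4) := by
    intro j
    congr 1
    simp only [VO_hi, VO_lo, Fin.addCases_left]
    ring
  have e2 : ∀ j : Fin n, ENNReal.ofReal (VO_hi n δ (Fin.natAdd n j) - VO_lo n N B δ (Fin.natAdd n j)) =
      ENNReal.ofReal (2 * Real.pi + 2 * δ) := by
    intro j
    congr 1
    simp only [VO_hi, VO_lo, Fin.addCases_right]
    ring
  rw [Finset.prod_congr rfl fun j _ => e1 j, Finset.prod_congr rfl fun j _ => e2 j,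
    Finset.prod_const, Finset.prod_const, Finset.card_univ, Fintype.card_fin, ← mul_pow,
    ← ENNReal.ofReal_mul h1, ← ENNReal.ofReal_pow (mul_nonneg h1 h2)]

theorem VV_meas (n N : ℕ) (B δ μ : ℝ) : Measurable (VV n N B δ μ) :=
  measurable_const.indicator (VO_bxm n N B δ)

theorem VV_nonneg (n N : ℕ) (B δ : ℝ) {μ : ℝ} (hμ : 0 ≤ μ) (x : Sp (n + n)) :
    0 ≤ VV n N B δ μ x :=
  Set.indicator_nonneg (fun _ _ => hμ) x

theorem VV_int {n N : ℕ} {B δ μ p : ℝ} (hB : 0 < B) (hδ : 0 < δ) (hμ : 0 < μ) (hp : 0 < p) :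
    ∫⁻ x, ENNReal.ofReal (VV n N B δ μ x ^ p) =
      ENNReal.ofReal (μ ^ p * ((N / B + 4) * (2 * Real.pi + 2 * δ)) ^ n) := by
  have e : (fun x : Sp (n + n) => ENNReal.ofReal (VV n N B δ μ x ^ p)) =
      (bx n N B δ).indicator (fun _ => ENNReal.ofReal (μ ^ p)) := by
    funext x
    by_cases hx : x ∈ bx n N B δ
    · rw [VV, Set.indicator_of_mem hx, Set.indicator_of_mem hx]
    · rw [VV, Set.indicator_of_notMem hx, Set.indicator_of_notMem hx, Real.zero_rpow hp.ne',
        ENNReal.ofReal_zero]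
  rw [e, lintegral_indicator (VO_bxm n N B δ), setLIntegral_const, VO_vol hB hδ,
    ← ENNReal.ofReal_mul (Real.rpow_nonneg hμ.le p)]

end Pool.Agent.H87.CF
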