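import Pool.Agent.H87.CF.SB
import Pool.Agent.H87.CF.VO
import Pool.Agent.H87.CF.RZ
import Pool.Agent.H87.CF.LM

/-!
# Main: assembly (helper87)
-/

open MeasureTheory Complex Set Filter Topology
open scoped ENNReal NNReal ContDiff ComplexConjugate

noncomputable section

namespace Pool.Agent.H87.CF

open Pool.Agent.H2.LTM

theorem rho_pos {C0 C1 ε B : ℝ} (hε : 0 < ε) (hB : 2 ≤ B) : 0 < rho C0 C1 ε B := by
  have h1 : Real.exp (-B / 2) < 1 / 2 := by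
    have h2 : Real.exp (-B / 2) ≤ Real.exp (-1) := Real.exp_le_exp.2 (by linarith)
    have h3 : Real.exp (-1) < 1 / 2 := by
      rw [Real.exp_neg, one_div]
      exact inv_strictAnti₀ (by norm_num) (lt_trans (by norm_num) Real.exp_one_gt_d9)
    linarith
  have h2 : 0 < 1 - 2 * Real.exp (-B / 2) := by linarith
  have h3 := Real.exp_pos (-B / 2)
  have h4 : 0 < B := by linarith
  unfold rho
  positivity

theorem main {n : ℕ} (hn : 1 ≤ n) {γ : ℝ} (hγ : 0 ≤ γ) {K : ℝ≥0∞}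
    (hK : ∀ (A : Sp (n + n) → Sp (n + n)) (V : Sp (n + n) → ℝ), Measurable A →
      (∀ i, LocallyIntegrable (fun x => A x i ^ 2)) → Measurable V → (∀ x, 0 ≤ V x) →
      ∫⁻ x, ENNReal.ofReal (V x ^ (γ + n)) ≠ ⊤ →
      (if γ = 0 then ((levels A V 0 : ℕ∞) : ℝ≥0∞) else riesz γ A V) ≤
        K * ∫⁻ x, ENNReal.ofReal (V x ^ (γ + n))) :
    ENNReal.ofReal (γ ^ γ / ((2 * Real.pi) ^ n * (γ + n) ^ (γ + n))) ≤ K := by
  rcases eq_or_ne K ⊤ with hKt | hKt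
  · rw [hKt]
    exact le_top
  have hn' : (1 : ℝ) ≤ n := by exact_mod_cast hn
  rw [← ENNReal.ofReal_toReal hKt]
  refine ENNReal.ofReal_le_ofReal ?_
  obtain ⟨C0, hC0, hη⟩ := exists_eta
  have hC1 : ∃ C1 : ℝ → ℝ, ∀ δ : ℝ, 0 < δ → δ < 1 → ∃ χ : ℝ → ℝ, Chi (C1 δ) δ χ := by
    have : ∀ δ : ℝ, ∃ C1 : ℝ, 0 < δ → δ < 1 → ∃ χ : ℝ → ℝ, Chi C1 δ χ := by
      intro δ
      by_cases hδ : 0 < δ ∧ δ < 1
      · obtain ⟨C1, χ, h⟩ := exists_chi hδ.1 hδ.2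
        exact ⟨C1, fun _ _ => ⟨χ, h⟩⟩
      · exact ⟨0, fun h1 h2 => absurd ⟨h1, h2⟩ hδ⟩
    choose C1 hC1 using this
    exact ⟨C1, hC1⟩
  obtain ⟨C1, hC1⟩ := hC1
  refine lim_main hn hγ ENNReal.toReal_nonneg C1 (C0 := C0) ?_
  intro ε δ B μ N hε hε1 hδ hδ1 hB hN hμ
  have hB0 : 0 < B := by linarith
  have hNB : (0 : ℝ) ≤ N / B := by positivity
  obtain ⟨η, hη⟩ := hη (-(N / B) - 1) 1 (by linarith)
  obtain ⟨χ, hχ⟩ := hC1 δ hδ hδ1
  have hρ := rho_pos (C0 := C0) (C1 := C1 δ) hε hB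
  set ρ := rho C0 (C1 δ) ε B with hρd
  have hμ0 : 0 < μ := lt_trans (by positivity) hμ
  have hp : 0 < γ + n := by linarith
  have hint := VV_int (n := n) (N := N) (B := B) (δ := δ) (μ := μ) (p := γ + n) hB0 hδ hμ0 hp
  have h1 := hK (AA n B) (VV n N B δ μ) (AA_meas n B) (AA_loc n B) (VV_meas n N B δ μ)
    (VV_nonneg n N B δ hμ0.le) (by rw [hint]; exact ENNReal.ofReal_ne_top)
  rw [hint] at h1
  have h2 : ENNReal.ofReal ((μ - n * ρ) ^ γ) * (N ^ n : ℕ) ≤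
      (if γ = 0 then ((levels (AA n B) (VV n N B δ μ) 0 : ℕ∞) : ℝ≥0∞)
        else riesz γ (AA n B) (VV n N B δ μ)) := by
    split_ifs with h0
    · rw [h0, Real.rpow_zero, ENNReal.ofReal_one, one_mul]
      have := levels_ge hn hη hχ hδ hδ1 hB hε (e := 0) (μ := μ) (by rw [add_zero]; exact hμ)
      exact_mod_cast this
    · refine riesz_ge (lt_of_le_of_ne hγ (Ne.symm h0)) (by linarith) _ _ _ ?_
      intro e he he1
      exact levels_ge hn hη hχ hδ hδ1 hB hε (by rw [← hρd]; linarith)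
  have h3 := h2.trans h1
  have h4 : 0 ≤ (μ - n * ρ) ^ γ := Real.rpow_nonneg (by linarith) _
  have e1 : ENNReal.ofReal ((μ - n * ρ) ^ γ) * (N ^ n : ℕ) =
      ENNReal.ofReal ((μ - n * ρ) ^ γ * (N : ℝ) ^ n) := by
    rw [ENNReal.ofReal_mul h4, ← ENNReal.ofReal_natCast (N ^ n)]
    push_cast
    rfl
  have h5 : 0 ≤ μ ^ (γ + n) * ((N / B + 4) * (2 * Real.pi + 2 * δ)) ^ n := by
    have := Real.pi_pos
    positivity
  rw [e1, ← ENNReal.ofReal_toReal hKt, ← ENNReal.ofReal_mul ENNReal.toReal_nonneg] at h3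
  exact (ENNReal.ofReal_le_ofReal_iff (mul_nonneg ENNReal.toReal_nonneg h5)).1 h3

end Pool.Agent.H87.CF
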