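import Pool.Agent.H87.CF.CH

/-!
ROW OR (110 lines).  Orthogonality of the families `Ech χ` and `Ww`.
`ex k y * conj (ex l y) = exp (I * (((k - l : ℤ) : ℝ) * y))`.
* `Ech_orth`: `Ech χ k y * conj (Ech χ l y) = χ² exp(I (k-l) y)`, `Chi.orth` with `m = (k : ℤ) - l`; `m = 0 ↔ k = l` in `Fin N`.
* `Ww_orth`: the integral is over `Ico (-π) (3π)`, i.e. two consecutive periods: `CH_e` at `-π` and at `π`.
* `Ech_mem`: `Ech χ k` is continuous with compact support (`Chi.zero`; `Continuous.memLp_of_hasCompactSupport`).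
* `Ww_mem`: bounded by `1` and zero outside a set of finite measure (indicator of `Ico (-π) (3π)` of a continuous bounded function: `MemLp.indicator`, `memLp_indicator_const`, or `Integrable` of the square, which is the indicator of `1`).
* `D_le`: `SS F E F (fun k y => ((deriv χ y : ℝ) : ℂ) * ex k y) j0 c x` is `deriv χ (y_{j0})` times `SS F E F (fun k y => ex k y) j0 c x` (pull the factor out of the product: `Finset.mul_prod_erase`), and `SS F E F Ww j0 c x` is the same `SS` if `y_{j0}` is in the window;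
  outside the window (where `y ≤ -π < -δ` or `y ≥ 3π > 2π + δ`, `δ < 1`) `deriv χ = 0` (`χ = 0` near `y`).
-/

open MeasureTheory Complex Set Filter Topology
open scoped ENNReal NNReal ContDiff ComplexConjugate

noncomputable section

namespace Pool.Agent.H87.CF

open Pool.Agent.H2.LTM

private theorem OR_ex (k l : ℕ) (y : ℝ) : ex k y * conj (ex l y) =
    Complex.exp (I * (((((k : ℤ) - (l : ℤ) : ℤ)) : ℝ) * y : ℝ)) := by
  unfold ex
  rw [← Complex.exp_conj, ← Complex.exp_add]
  congr 1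
  rw [map_mul, Complex.conj_I, Complex.conj_ofReal]
  push_cast
  ring

private theorem OR_iff {N : ℕ} (k l : Fin N) : (((k : ℕ) : ℤ) - ((l : ℕ) : ℤ) = 0) ↔ k = l := by
  rw [sub_eq_zero]
  constructor
  · intro h
    exact Fin.ext (by exact_mod_cast h)
  · rintro rfl
    rfl

private theorem OR_cex (k : ℕ) : Continuous (ex k) := by
  unfold ex
  fun_prop

private theorem OR_norm (k : ℕ) (y : ℝ) : ‖ex k y‖ = 1 := by
  unfold ex
  rw [mul_comm, Complex.norm_exp_ofReal_mul_I]

theorem Ech_orth {N : ℕ} {C1 δ : ℝ} {χ : ℝ → ℝ} (h : Chi C1 δ χ) (k l : Fin N) :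
    ∫ y, Ech χ k y * conj (Ech χ l y) = if k = l then ((2 * Real.pi : ℝ) : ℂ) else 0 := by
  have e1 : ∀ y, Ech χ k y * conj (Ech χ l y) = (χ y : ℂ) ^ 2 *
      Complex.exp (I * (((((k : ℕ) : ℤ) - ((l : ℕ) : ℤ) : ℤ) : ℝ) * y : ℝ)) := by
    intro y
    rw [← OR_ex]
    unfold Ech
    rw [map_mul, Complex.conj_ofReal]
    ring
  simp_rw [e1]
  rw [h.orth]
  simp only [OR_iff]
  push_cast
  rfl

private theorem OR_ind {N : ℕ} (k : Fin N) :
    Ww k = (Ico (-Real.pi) (3 * Real.pi)).indicator (ex k) := by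
  funext y
  unfold Ww
  rw [Set.indicator_apply]
  rfl

theorem Ww_orth {N : ℕ} (k l : Fin N) :
    ∫ y, Ww k y * conj (Ww l y) = if k = l then ((4 * Real.pi : ℝ) : ℂ) else 0 := by
  set m : ℤ := ((k : ℕ) : ℤ) - ((l : ℕ) : ℤ) with hm
  have e1 : (fun y => Ww k y * conj (Ww l y)) = (Ico (-Real.pi) (3 * Real.pi)).indicator
      (fun y => Complex.exp (I * ((m : ℝ) * y : ℝ))) := by
    funext y
    rw [OR_ind, OR_ind, Set.indicator_apply, Set.indicator_apply, Set.indicator_apply]
    split_ifs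
    · exact OR_ex _ _ _
    · simp
  have hc : Continuous (fun y : ℝ => Complex.exp (I * ((m : ℝ) * y : ℝ))) := by fun_prop
  rw [e1, integral_indicator measurableSet_Ico, integral_Ico_eq_integral_Ioo,
    ← integral_Ioc_eq_integral_Ioo,
    ← intervalIntegral.integral_of_le (by have := Real.pi_pos; linarith)]
  rw [← intervalIntegral.integral_add_adjacent_intervals (b := Real.pi)
    (hc.intervalIntegrable _ _) (hc.intervalIntegrable _ _)]
  have h1 := CH_e m (-Real.pi)
  have h2 := CH_e m Real.pi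
  rw [show -Real.pi + 2 * Real.pi = Real.pi by ring] at h1
  rw [show Real.pi + 2 * Real.pi = 3 * Real.pi by ring] at h2
  rw [h1, h2]
  have h3 : m = 0 ↔ k = l := OR_iff k l
  simp only [h3]
  split_ifs
  · push_cast
    ring
  · ring

theorem Ech_mem {N : ℕ} {C1 δ : ℝ} {χ : ℝ → ℝ} (h : Chi C1 δ χ) (k : Fin N) :
    MemLp (Ech χ k) 2 volume := by
  have hc : Continuous (Ech χ k) := by
    unfold Ech
    exact (Complex.continuous_ofReal.comp h.smooth.continuous).mul (OR_cex _)
  refine hc.memLp_of_hasCompactSupport ?_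
  refine HasCompactSupport.intro (K := Icc (-δ) (2 * Real.pi + δ)) isCompact_Icc ?_
  intro y hy
  unfold Ech
  rw [h.zero y ?_]
  · simp
  · by_contra hcon
    push Not at hcon
    exact hy ⟨hcon.1.le, hcon.2.le⟩

theorem Ww_mem {N : ℕ} (k : Fin N) : MemLp (Ww k) 2 volume := by
  rw [OR_ind, memLp_indicator_iff_restrict measurableSet_Ico]
  refine MemLp.of_bound (OR_cex _).aestronglyMeasurable 1 (Filter.Eventually.of_forall fun y => ?_)
  rw [OR_norm]

private theorem OR_der {C1 δ : ℝ} {χ : ℝ → ℝ} (hδ : δ < 1) (h : Chi C1 δ χ) {y : ℝ}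
    (hy : ¬ (-Real.pi ≤ y ∧ y < 3 * Real.pi)) : deriv χ y = 0 := by
  have hpi := Real.pi_gt_three
  have h0 : χ =ᶠ[𝓝 y] fun _ => 0 := by
    by_cases h1 : -Real.pi ≤ y
    · have h2 : 3 * Real.pi ≤ y := by
        by_contra hcon
        exact hy ⟨h1, not_le.1 hcon⟩
      have h3 : 2 * Real.pi + δ < y := by linarith
      filter_upwards [lt_mem_nhds h3] with z hz
      exact h.zero z (Or.inr hz.le)
    · have h3 : y < -δ := by
        push Not at h1
        linarith
      filter_upwards [gt_mem_nhds h3] with z hz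
      exact h.zero z (Or.inl hz.le)
  rw [h0.deriv_eq]
  simp

theorem D_le {n N : ℕ} {C1 δ : ℝ} {χ : ℝ → ℝ} (hδ : δ < 1) (h : Chi C1 δ χ) (F : Fin N → ℝ → ℝ)
    (E : Fin N → ℝ → ℂ) (j0 : Fin n) (c : (Fin n → Fin N) → ℂ) (x : Sp (n + n)) :
    ‖SS F E F (fun k y => ((deriv χ y : ℝ) : ℂ) * ex k y) j0 c x‖ ^ 2 ≤
      C1 ^ 2 * ‖SS F E F Ww j0 c x‖ ^ 2 := by
  have key : SS F E F (fun k y => ((deriv χ y : ℝ) : ℂ) * ex k y) j0 c x =
      ((deriv χ (x (Fin.natAdd n j0)) : ℝ) : ℂ) * SS F E F Ww j0 c x := by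
    unfold SS
    rw [Finset.mul_sum]
    refine Finset.sum_congr rfl fun κ _ => ?_
    rw [← mul_assoc, mul_comm _ (c κ), mul_assoc]
    congr 1
    rw [← Finset.mul_prod_erase Finset.univ _ (Finset.mem_univ j0),
      ← Finset.mul_prod_erase Finset.univ (fun j => if j = j0 then
        (F (κ j) (x (Fin.castAdd n j)) : ℂ) * Ww (κ j) (x (Fin.natAdd n j))
        else (F (κ j) (x (Fin.castAdd n j)) : ℂ) * E (κ j) (x (Fin.natAdd n j)))
        (Finset.mem_univ j0)]
    rw [if_pos rfl, if_pos rfl, ← mul_assoc (((deriv χ (x (Fin.natAdd n j0)) : ℝ) : ℂ))]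
    congr 1
    · by_cases hy : -Real.pi ≤ x (Fin.natAdd n j0) ∧ x (Fin.natAdd n j0) < 3 * Real.pi
      · unfold Ww
        rw [if_pos hy]
        ring
      · have h0 := OR_der hδ h hy
        simp only [h0, Complex.ofReal_zero, zero_mul, mul_zero]
    · refine Finset.prod_congr rfl fun j hj => ?_
      rw [if_neg (Finset.ne_of_mem_erase hj), if_neg (Finset.ne_of_mem_erase hj)]
  rw [key, norm_mul, mul_pow]
  refine mul_le_mul_of_nonneg_right ?_ (by positivity)
  rw [Complex.norm_real, Real.norm_eq_abs, sq_abs]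
  exact sq_le_sq' (by have := (abs_le.1 (h.der (x (Fin.natAdd n j0)))).1; linarith)
    (abs_le.1 (h.der (x (Fin.natAdd n j0)))).2

end Pool.Agent.H87.CF
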