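import Pool.Agent.H87.CF.Defs

/-!
ROW PI (70 lines).  Integrals of products over `Sp (n + n) = Fin (n + n) → ℝ`.
Put `f : Fin (n + n) → ℝ → ℂ := Fin.addCases p q` (so `f (castAdd n j) = p j`, `f (natAdd n j) = q j`, `Fin.addCases_left/right`).
`∏ j, (p j (x_j) * q j (y_j)) = (∏ j, p j x_j) * ∏ j, q j y_j = ∏ i : Fin (n + n), f i (x i)` (`Finset.prod_mul_distrib`, `Fin.prod_univ_add`).
Then `MeasureTheory.Integrable.fintype_prod` and `MeasureTheory.integral_fintype_prod_volume_eq_prod` (or the versions of these names with `_eq_prod`).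
`integrable_sq_mul`: `MemLp.integrable_mul`.
-/

open MeasureTheory Complex Set Filter Topology
open scoped ENNReal NNReal ContDiff ComplexConjugate

noncomputable section

namespace Pool.Agent.H87.CF

open Pool.Agent.H2.LTM

theorem PI_eq {n : ℕ} (p q : Fin n → ℝ → ℂ) (x : Sp (n + n)) :
    ∏ j, (p j (x (Fin.castAdd n j)) * q j (x (Fin.natAdd n j))) =
      ∏ i : Fin (n + n), (Fin.addCases p q i : ℝ → ℂ) (x i) := by
  rw [Finset.prod_mul_distrib, Fin.prod_univ_add]
  simp only [Fin.addCases_left, Fin.addCases_right]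

theorem PI_int {n : ℕ} (p q : Fin n → ℝ → ℂ) (hp : ∀ j, Integrable (p j))
    (hq : ∀ j, Integrable (q j)) (i : Fin (n + n)) :
    Integrable (Fin.addCases p q i : ℝ → ℂ) := by
  refine Fin.addCases (fun j => ?_) (fun j => ?_) i
  · rw [Fin.addCases_left]
    exact hp j
  · rw [Fin.addCases_right]
    exact hq j

theorem int_prod {n : ℕ} (p q : Fin n → ℝ → ℂ) (hp : ∀ j, Integrable (p j))
    (hq : ∀ j, Integrable (q j)) :
    Integrable (fun x : Sp (n + n) =>
      ∏ j, (p j (x (Fin.castAdd n j)) * q j (x (Fin.natAdd n j)))) ∧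
    ∫ x : Sp (n + n), ∏ j, (p j (x (Fin.castAdd n j)) * q j (x (Fin.natAdd n j))) =
      ∏ j, ((∫ s, p j s) * ∫ y, q j y) := by
  have h1 : (fun x : Sp (n + n) =>
      ∏ j, (p j (x (Fin.castAdd n j)) * q j (x (Fin.natAdd n j)))) =
      fun x : Sp (n + n) => ∏ i : Fin (n + n), (Fin.addCases p q i : ℝ → ℂ) (x i) :=
    funext fun x => PI_eq p q x
  constructor
  · rw [h1]
    exact Integrable.fintype_prod (𝕜 := ℂ) (f := fun i : Fin (n + n) => (Fin.addCases p q i : ℝ → ℂ))
      (PI_int p q hp hq)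
  · rw [h1]
    have h2 := integral_fintype_prod_volume_eq_prod (𝕜 := ℂ)
      (fun i : Fin (n + n) => (Fin.addCases p q i : ℝ → ℂ))
    refine h2.trans ?_
    rw [Fin.prod_univ_add, Finset.prod_mul_distrib]
    simp only [Fin.addCases_left, Fin.addCases_right]

end Pool.Agent.H87.CF
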