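import Pool.Agent.H87.CF.KN

/-!
ROW SB (130 lines).  Many eigenvalues: `N^n ≤ levels (AA n B) (VV n N B δ μ) e` if `n ρ + e < μ`.
`le_cnt_iff` (`H2/LTM/CNT`) with the `N^n` functions `u_κ = S0 F E (Pi.single κ 1)`, `κ : Fin n → Fin N`, enumerated by `finFunctionFinEquiv : (Fin n → Fin N) ≃ Fin (N ^ n)`; they are in `TF` (`S0_smooth`; compact support: they vanish outside the compact box `bx`,
`Fc_zero`, `Chi.zero`; `HasCompactSupport.intro`).  `∑ i, c i • u_i = S0 F E (c ∘ equiv)` as functions (`Finset.sum_comm`, or linearity of `S0` in `c`; `Submodule.coe_sum`, `Equiv.sum_comp`).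
For `u = S0 F E c'`, `c' ≠ 0`: `pot (VV ..) u = μ * mass u`, because `u = 0` outside `bx` ; `kin ≤ n ρ mass` (`kin_S0_le`); `mass u > 0` (`mass_S0_pos`, `Ech_orth`, `oe_ge` with `2 exp(-B/2) < 1`).
So the form is `≤ (n ρ - μ + e) mass u < 0`.  (At `u = 0` the form is `0`: `kin`, `pot`, `mass` of `0`.)
-/

open MeasureTheory Complex Set Filter Topology
open scoped ENNReal NNReal ContDiff ComplexConjugate

noncomputable section

namespace Pool.Agent.H87.CF

open Pool.Agent.H2.LTM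

theorem SB_exp {B : ℝ} (hB : 2 ≤ B) : 0 < 1 - 2 * Real.exp (-B / 2) := by
  have h2 : Real.exp (-B / 2) ≤ Real.exp (-1) := Real.exp_le_exp.2 (by linarith)
  have h3 : Real.exp (-1) < 1 / 2 := by
    rw [Real.exp_neg, one_div]
    exact inv_strictAnti₀ (by norm_num) (lt_trans (by norm_num) Real.exp_one_gt_d9)
  linarith

theorem SB_GG {B : ℝ} (hB : 0 < B) : 0 < GG B := by
  unfold GG
  exact Real.sqrt_pos.2 (div_pos Real.pi_pos hB)

theorem SB_out {n N : ℕ} {C0 C1 B δ : ℝ} {η χ : ℝ → ℝ} (hη : Eta C0 (-(N / B) - 1) 1 η)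
    (hχ : Chi C1 δ χ) (c : (Fin n → Fin N) → ℂ) (x : Sp (n + n)) (hx : x ∉ bx n N B δ) :
    S0 (Fc η B) (Ech χ) c x = 0 := by
  unfold bx at hx
  simp only [mem_setOf_eq, not_forall] at hx
  obtain ⟨j, hj⟩ := hx
  unfold S0
  refine Finset.sum_eq_zero (fun κ _ => ?_)
  refine mul_eq_zero_of_right _ (Finset.prod_eq_zero (Finset.mem_univ j) ?_)
  rw [not_and_or] at hj
  rcases hj with hj | hj
  · have h0 : Fc η B (κ j) (x (Fin.castAdd n j)) = 0 := by
      refine Fc_zero hη (κ j) _ ?_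
      by_contra hcon
      push Not at hcon
      exact hj ⟨hcon.1.le, hcon.2.le⟩
    rw [h0]
    simp
  · have h0 : χ (x (Fin.natAdd n j)) = 0 := by
      refine hχ.zero _ ?_
      by_contra hcon
      push Not at hcon
      exact hj ⟨hcon.1.le, hcon.2.le⟩
    unfold Ech
    rw [h0]
    simp

theorem SB_cpt {n N : ℕ} {C0 C1 B δ : ℝ} {η χ : ℝ → ℝ} (hη : Eta C0 (-(N / B) - 1) 1 η)
    (hχ : Chi C1 δ χ) (hδ : 0 < δ) (hB : 0 < B) (c : (Fin n → Fin N) → ℂ) :
    HasCompactSupport (S0 (Fc η B) (Ech χ) c) := by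
  refine HasCompactSupport.intro
    (K := Icc (fun _ : Fin (n + n) => -(N / B) - 2 - δ) (fun _ => 2 + 2 * Real.pi + δ))
    isCompact_Icc ?_
  intro x hx
  refine SB_out hη hχ c x (fun hb => hx ?_)
  have hpi := Real.pi_pos
  have hNB : (0 : ℝ) ≤ N / B := by positivity
  constructor
  · intro i
    refine Fin.addCases (fun j => ?_) (fun j => ?_) i
    · have := (hb j).1.1
      simp only
      linarith
    · have := (hb j).2.1
      simp only
      linarith
  · intro i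
    refine Fin.addCases (fun j => ?_) (fun j => ?_) i
    · have := (hb j).1.2
      simp only
      linarith
    · have := (hb j).2.2
      simp only
      linarith

theorem SB_mem {n N : ℕ} {C0 C1 B δ : ℝ} {η χ : ℝ → ℝ} (hη : Eta C0 (-(N / B) - 1) 1 η)
    (hχ : Chi C1 δ χ) (hδ : 0 < δ) (hB : 0 < B) (c : (Fin n → Fin N) → ℂ) :
    S0 (Fc η B) (Ech χ) c ∈ TF (n + n) :=
  ⟨S0_smooth (fun k => Fc_smooth hη k) (fun k => Ech_smooth hχ k) c, SB_cpt hη hχ hδ hB c⟩

theorem SB_single {n N : ℕ} (F : Fin N → ℝ → ℝ) (E : Fin N → ℝ → ℂ) (κ : Fin n → Fin N)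
    (x : Sp (n + n)) : S0 F E (Pi.single κ 1) x = ∏ j : Fin n,
    ((F (κ j) (x (Fin.castAdd n j)) : ℂ) * E (κ j) (x (Fin.natAdd n j))) := by
  unfold S0
  rw [Finset.sum_eq_single κ]
  · rw [Pi.single_eq_same, one_mul]
  · intro κ' _ hne
    rw [Pi.single_eq_of_ne hne, zero_mul]
  · intro h
    exact absurd (Finset.mem_univ κ) h

theorem SB_sum {n N : ℕ} {C0 C1 B δ : ℝ} {η χ : ℝ → ℝ} (hη : Eta C0 (-(N / B) - 1) 1 η)
    (hχ : Chi C1 δ χ) (hδ : 0 < δ) (hB : 0 < B) (c : Fin (N ^ n) → ℂ) :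
    ((∑ i, c i • (⟨S0 (Fc η B) (Ech χ) (Pi.single (finFunctionFinEquiv.symm i) 1),
      SB_mem hη hχ hδ hB _⟩ : TF (n + n)) : TF (n + n)) : Sp (n + n) → ℂ) =
      S0 (Fc η B) (Ech χ) (fun κ => c (finFunctionFinEquiv κ)) := by
  funext x
  rw [Submodule.coe_sum, Finset.sum_apply]
  simp only [Submodule.coe_smul, Pi.smul_apply, smul_eq_mul, SB_single]
  unfold S0
  rw [← Equiv.sum_comp (finFunctionFinEquiv (m := N) (n := n))]
  refine Finset.sum_congr rfl (fun κ _ => ?_)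
  rw [Equiv.symm_apply_apply]

theorem SB_zero {n : ℕ} (A : Sp n → Sp n) (V : Sp n → ℝ) (e : ℝ) :
    0 ≤ kin A ((0 : TF n) : Sp n → ℂ) - pot V ((0 : TF n) : Sp n → ℂ) +
      e * mass ((0 : TF n) : Sp n → ℂ) := by
  have h1 : kin A ((0 : TF n) : Sp n → ℂ) = 0 := by
    unfold kin
    refine Finset.sum_eq_zero (fun i _ => ?_)
    have : ∀ x, ‖cov A ((0 : TF n) : Sp n → ℂ) i x‖ ^ 2 = 0 := by
      intro x
      unfold cov
      rw [Submodule.coe_zero, fderiv_zero]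
      simp
    simp only [this, integral_zero]
  have h2 : pot V ((0 : TF n) : Sp n → ℂ) = 0 := by
    unfold pot
    simp
  have h3 : mass ((0 : TF n) : Sp n → ℂ) = 0 := by
    unfold mass
    simp
  rw [h1, h2, h3]
  simp

theorem levels_ge {n N : ℕ} (hn : 1 ≤ n) {C0 C1 B ε δ μ e : ℝ} {η χ : ℝ → ℝ}
    (hη : Eta C0 (-(N / B) - 1) 1 η) (hχ : Chi C1 δ χ) (hδ0 : 0 < δ) (hδ : δ < 1) (hB : 2 ≤ B)
    (hε : 0 < ε) (hμ : n * rho C0 C1 ε B + e < μ) :
    ((N ^ n : ℕ) : ℕ∞) ≤ levels (AA n B) (VV n N B δ μ) e := by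
  have hB0 : 0 < B := by linarith
  unfold levels
  refine (le_cnt_iff _ (SB_zero _ _ _) _).2 ⟨fun i =>
    ⟨S0 (Fc η B) (Ech χ) (Pi.single (finFunctionFinEquiv.symm i) 1), SB_mem hη hχ hδ0 hB0 _⟩, ?_⟩
  intro c hc
  simp only
  rw [SB_sum hη hχ hδ0 hB0 c]
  set c' : (Fin n → Fin N) → ℂ := fun κ => c (finFunctionFinEquiv κ) with hc'
  have hc0 : c' ≠ 0 := by
    intro h0
    apply hc
    funext i
    have := congrFun h0 (finFunctionFinEquiv.symm i)
    simpa [hc'] using this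
  have hpos : 0 < mass (S0 (Fc η B) (Ech χ) c') := by
    refine mass_S0_pos (Fc η B) (Ech χ) ⟨0, hn⟩ c' (β := 2 * Real.pi) ?_ ?_ ?_ ?_ ?_ hc0
    · intro k
      exact (Fc_smooth hη k).continuous.memLp_of_hasCompactSupport (Fc_supp hη k)
    · intro k
      exact Ech_mem hχ k
    · intro k l
      exact Ech_orth hχ k l
    · have := Real.pi_pos
      positivity
    · intro k
      exact lt_of_lt_of_le (mul_pos (SB_exp hB) (SB_GG hB0)) (oe_ge hη hB0 k)
  have hpot : pot (VV n N B δ μ) (S0 (Fc η B) (Ech χ) c') =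
      μ * mass (S0 (Fc η B) (Ech χ) c') := by
    unfold pot mass
    rw [← integral_const_mul]
    refine integral_congr_ae (Filter.Eventually.of_forall (fun x => ?_))
    by_cases hx : x ∈ bx n N B δ
    · simp only [VV, indicator_of_mem hx]
    · simp only [SB_out hη hχ c' x hx, norm_zero]
      ring
  have hkin := kin_S0_le hη hχ hδ hB hε c'
  rw [hpot]
  nlinarith [hkin, hpos, mul_pos hpos (sub_pos.2 hμ)]

end Pool.Agent.H87.CF
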